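import Pool.Agent.Lib.MP_b39e30_al.Lin.GDefs
import Pool.Agent.Lib.MP_b39e30_al.Lin.Final

/-!
The matrices of degree three that are upper unitriangular modulo an ideal.
-/

set_option autoImplicit false

namespace Pool.Agent.Lib.MP_b39e30_al.Rc

variable {R : Type} [CommRing R]

/-- The entries on and below the diagonal lie in `I`. -/
def Low (I : Ideal R) (X : Matrix (Fin 3) (Fin 3) R) : Prop := ∀ i j, j ≤ i → X i j ∈ I

theorem Low.mul {I : Ideal R} {X Y : Matrix (Fin 3) (Fin 3) R} (hX : Low I X) (hY : Low I Y) :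
    Low I (X * Y) := fun i j h => by
  rw [Matrix.mul_apply]
  refine Ideal.sum_mem _ fun c _ => ?_
  rcases le_total c i with h1 | h1
  · exact I.mul_mem_right _ (hX i c h1)
  · exact I.mul_mem_left _ (hY c j (h.trans h1))

theorem Low.one_mul {I : Ideal R} {X Y : Matrix (Fin 3) (Fin 3) R} (hX : Low I (X - 1))
    (hY : Low I (Y - 1)) : Low I (X * Y - 1) := fun i j h => by
  rw [show X * Y - 1 = (X - 1) * (Y - 1) + (X - 1) + (Y - 1) by noncomm_ring]
  exact I.add_mem (I.add_mem (hX.mul hY i j h) (hX i j h)) (hY i j h)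

/-- The group of the matrices that are upper unitriangular modulo `I`. -/
def GI (I : Ideal R) : Subgroup (GL (Fin 3) R) where
  carrier := {h | Low I (h.val - 1) ∧ Low I ((h⁻¹).val - 1)}
  one_mem' := ⟨fun i j _ => by simp, fun i j _ => by simp⟩
  mul_mem' := fun {x y} hx hy =>
    ⟨hx.1.one_mul hy.1, by rw [mul_inv_rev]; exact hy.2.one_mul hx.2⟩
  inv_mem' := fun {x} hx => ⟨hx.2, by rw [inv_inv]; exact hx.1⟩

end Pool.Agent.Lib.MP_b39e30_al.Rc
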