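import Pool.Agent.Lib.MP_b39e30_al.Rc.CDef

/-!
The group `GI I` is locally nilpotent and an Engel group when `I` is nil of bounded index.
-/

set_option autoImplicit false

namespace Pool.Agent.Lib.MP_b39e30_al.Rc

open Pool.Agent.Lib.MP_b39e30_al.Lin

variable {R : Type} [CommRing R]

theorem cnil_span {m : ℕ} (T : Finset R) (hT : ∀ a ∈ T, a ^ m = 0) :
    Ideal.span (T : Set R) ^ (m * T.card + 1) = ⊥ := by
  classical
  induction T using Finset.induction_on with
  | empty => simp
  | insert a T ha ih =>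
    rw [Finset.coe_insert, Ideal.span_insert, Finset.card_insert_of_notMem ha,
      show m * (T.card + 1) + 1 = m + (m * T.card + 1) by ring]
    refine le_bot_iff.1 (Ideal.sup_pow_add_le_pow_sup_pow.trans (le_of_eq ?_))
    rw [ih fun b hb => hT b (Finset.mem_insert_of_mem hb), Ideal.span_singleton_pow,
      hT a (Finset.mem_insert_self _ _), sup_bot_eq, Ideal.span_singleton_eq_bot]

theorem cnil_three {J : Ideal R} {X Y Z : Matrix (Fin 3) (Fin 3) R} (hX : Low J X) (hY : Low J Y)
    (hZ : Low J Z) (i j : Fin 3) : (X * Y * Z) i j ∈ J := by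
  rw [Matrix.mul_apply]
  refine Ideal.sum_mem _ fun b _ => ?_
  by_cases h3 : j ≤ b
  · exact J.mul_mem_left _ (hZ b j h3)
  refine J.mul_mem_right _ ?_
  rw [Matrix.mul_apply]
  refine Ideal.sum_mem _ fun a _ => ?_
  by_cases h1 : a ≤ i
  · exact J.mul_mem_right _ (hX i a h1)
  · exact J.mul_mem_left _ (hY a b (by omega))

theorem cnil_prod {J : Ideal R} (N : ℕ) : ∀ l : List (Matrix (Fin 3) (Fin 3) R),
    (∀ U ∈ l, Low J U) → l.length = 3 * N → ∀ i j, l.prod i j ∈ J ^ N := by
  induction N with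
  | zero => intro l _ _ i j; simp
  | succ N ih =>
    intro l hl h3 i j
    match l, hl, h3 with
    | X :: Y :: Z :: l, hl, h3 =>
      rw [List.prod_cons, List.prod_cons, List.prod_cons, ← mul_assoc, ← mul_assoc,
        Matrix.mul_apply, pow_succ']
      refine Ideal.sum_mem _ fun c _ => Ideal.mul_mem_mul
        (cnil_three (hl X (by simp)) (hl Y (by simp)) (hl Z (by simp)) i c)
        (ih l (fun U hU => hl U (by simp [hU])) ?_ c j)
      simp only [List.length_cons] at h3
      omega
    | [], _, h3 => simp at h3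
    | [_], _, h3 => simp at h3; omega
    | [_, _], _, h3 => simp at h3; omega

theorem GI_lcs (I : Ideal R) {m : ℕ} (hm : ∀ a ∈ I, a ^ m = 0) (k : ℕ) :
    ∃ c : ℕ, ∀ s : Finset (GI I), s.card ≤ k →
      (Subgroup.closure (s : Set (GI I))).lowerCentralSeries c = ⊥ := by
  classical
  refine ⟨3 * (m * (k * 9) + 1) + 1, fun s hs => ?_⟩
  let P : Finset (Fin 3 × Fin 3) := Finset.univ.filter fun p => p.2 ≤ p.1
  let T : Finset R := (s ×ˢ P).image fun x => ((x.1 : GL (Fin 3) R).val - 1) x.2.1 x.2.2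
  have hc : T.card ≤ k * 9 := by
    refine Finset.card_image_le.trans ?_
    rw [Finset.card_product]
    exact Nat.mul_le_mul hs ((Finset.card_filter_le _ _).trans (by simp))
  have hT : ∀ a ∈ T, a ^ m = 0 := by
    intro a ha
    obtain ⟨x, hx, rfl⟩ := Finset.mem_image.1 ha
    exact hm _ (x.1.2.1 _ _ (Finset.mem_filter.1 (Finset.mem_product.1 hx).2).2)
  have hJ : Ideal.span (T : Set R) ^ (m * (k * 9) + 1) = ⊥ :=
    le_bot_iff.1 ((Ideal.pow_le_pow_right
      (Nat.succ_le_succ (Nat.mul_le_mul_left m hc))).trans (cnil_span T hT).le)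
  obtain ⟨F, hmul, han, h1, hS, h0⟩ := final_filt R
    {U : Matrix (Fin 3) (Fin 3) R | Low (Ideal.span (T : Set R)) U} (3 * (m * (k * 9) + 1))
    fun l hl h3 => by
      ext i j
      have := cnil_prod _ l hl h3 i j
      rwa [hJ, Ideal.mem_bot] at this
  refine final_lcs ((Units.coeHom _).comp (GI I).subtype)
    (Units.val_injective.comp Subtype.val_injective) hmul han h1 h0 fun h hh => ?_
  refine ⟨1, (h : GL (Fin 3) R).val - 1, hS _ fun i j hij => Ideal.subset_span ?_, by simp⟩
  exact Finset.mem_coe.2 (Finset.mem_image.2 ⟨(h, (i, j)), Finset.mem_product.2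
    ⟨hh, Finset.mem_filter.2 ⟨Finset.mem_univ _, hij⟩⟩, rfl⟩)

theorem GI_eng (I : Ideal R) {m : ℕ} (hm : ∀ a ∈ I, a ^ m = 0) :
    ∃ n : ℕ, ∀ g : GI I, Eng n g := by
  classical
  obtain ⟨c, hc⟩ := GI_lcs I hm 2
  refine ⟨c, fun g x => ?_⟩
  have key : ∀ i, (fun y => y⁻¹ * g⁻¹ * y * g)^[i] x ∈
      (Subgroup.closure (({x, g} : Finset (GI I)) : Set (GI I))).lowerCentralSeries i := by
    intro i
    induction i with
    | zero => exact Subgroup.subset_closure (by simp)
    | succ i ih =>
      have hg : g ∈ Subgroup.closure (({x, g} : Finset (GI I)) : Set (GI I)) :=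
        Subgroup.subset_closure (by simp)
      have h1 := Subgroup.commutator_mem_commutator (inv_mem ih) (inv_mem hg)
      rw [commutatorElement_def, inv_inv, inv_inv] at h1
      rw [Function.iterate_succ_apply']
      exact h1
  have h := key c
  rwa [hc _ Finset.card_le_two, Subgroup.mem_bot] at h

end Pool.Agent.Lib.MP_b39e30_al.Rc
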