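import Pool.Agent.Lib.MP_b39e30_al.Rc.CDef

/-!
An elementary matrix generates a subnormal subgroup of `GI I` only when `I` is nilpotent.
-/

set_option autoImplicit false

namespace Pool.Agent.Lib.MP_b39e30_al.Rc

variable {R : Type} [CommRing R]

/-- An elementary matrix. -/
def csE (i j : Fin 3) (h : i ≠ j) (a : R) : GL (Fin 3) R :=
  ⟨Matrix.transvection i j a, Matrix.transvection i j (-a),
    by rw [Matrix.transvection_mul_transvection_same _ _ h, add_neg_cancel,
      Matrix.transvection_zero],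
    by rw [Matrix.transvection_mul_transvection_same _ _ h, neg_add_cancel,
      Matrix.transvection_zero]⟩

theorem cs_add {i j : Fin 3} (h : i ≠ j) (a b : R) :
    csE i j h a * csE i j h b = csE i j h (a + b) :=
  Units.ext (Matrix.transvection_mul_transvection_same _ _ h a b)

theorem cs_ring {A : Type} [Ring A] {x y : A} (h1 : x * x = 0) (h2 : y * y = 0) (h3 : y * x = 0) :
    (1 + x) * (1 + y) * (1 + -x) * (1 + -y) = 1 + x * y := by
  have e1 : (1 + x) * (1 + y) * (1 + -x) = 1 + y + x * y := by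
    simp only [mul_add, add_mul, mul_neg, mul_one, one_mul, mul_assoc, h1, h3, mul_zero]
    abel
  rw [e1]
  simp only [mul_add, add_mul, mul_neg, mul_one, one_mul, mul_assoc, h2, mul_zero]
  abel

theorem cs_neg (i j : Fin 3) (a : R) : Matrix.single i j (-a) = -Matrix.single i j a := by
  rw [eq_neg_iff_add_eq_zero, ← Matrix.single_add, neg_add_cancel, Matrix.single_zero]

theorem cs_comm {i j k : Fin 3} (h1 : i ≠ j) (h2 : j ≠ k) (h3 : i ≠ k) (a b : R) :
    csE i j h1 a * csE j k h2 b * (csE i j h1 a)⁻¹ * (csE j k h2 b)⁻¹ = csE i k h3 (a * b) := by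
  refine Units.ext ?_
  change (1 + Matrix.single i j a) * (1 + Matrix.single j k b) * (1 + Matrix.single i j (-a)) *
    (1 + Matrix.single j k (-b)) = 1 + Matrix.single i k (a * b)
  rw [cs_neg, cs_neg, cs_ring (Matrix.single_mul_single_of_ne _ _ _ _ h1.symm _)
    (Matrix.single_mul_single_of_ne _ _ _ _ h2.symm _)
    (Matrix.single_mul_single_of_ne _ _ _ _ h3.symm _), Matrix.single_mul_single_same]

theorem cs_low {I : Ideal R} {i j : Fin 3} {a : R} (h : i < j ∨ a ∈ I) :
    Low I (Matrix.transvection i j a - 1) := by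
  intro u v huv
  rw [Matrix.transvection, add_sub_cancel_left, Matrix.single_apply]
  split_ifs with e
  · obtain ⟨rfl, rfl⟩ := e
    exact h.resolve_left (not_lt.2 huv)
  · exact I.zero_mem

theorem cs_mem {I : Ideal R} {i j : Fin 3} (h : i ≠ j) {a : R} (ha : i < j ∨ a ∈ I) :
    csE i j h a ∈ GI I := ⟨cs_low ha, cs_low (ha.imp_right I.neg_mem)⟩

theorem cs_step {J : Ideal R} {K L : Subgroup (GL (Fin 3) R)}
    (hN : ∀ x ∈ K, ∀ y ∈ L, y * x * y⁻¹ ∈ K) (hg : csE 0 1 (by decide) (1 : R) ∈ K)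
    (hL : ∀ i j h, ∀ a ∈ J, csE i j h a ∈ L) : ∀ i j h, ∀ a ∈ J * J * J, csE i j h a ∈ K := by
  have c1 : ∀ i j k h1 (_ : j ≠ k) h3 (a b : R), csE i j h1 a ∈ K → b ∈ J →
      csE i k h3 (a * b) ∈ K := by
    intro i j k h1 h2 h3 a b ha hb
    rw [← cs_comm h1 h2 h3, mul_assoc, mul_assoc, ← mul_assoc (csE j k h2 b)]
    exact K.mul_mem ha (hN _ (K.inv_mem ha) _ (hL j k h2 b hb))
  have c2 : ∀ i j k (_ : i ≠ j) h2 h3 (a b : R), a ∈ J → csE j k h2 b ∈ K →
      csE i k h3 (a * b) ∈ K := by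
    intro i j k h1 h2 h3 a b ha hb
    rw [← cs_comm h1 h2 h3]
    exact K.mul_mem (hN _ hb _ (hL i j h1 a ha)) (K.inv_mem hb)
  have e02 : ∀ a ∈ J, csE 0 2 (by decide) a ∈ K := fun a ha => by
    simpa using c1 0 1 2 (by decide) (by decide) (by decide) 1 a hg ha
  have e21 : ∀ a ∈ J, csE 2 1 (by decide) a ∈ K := fun a ha => by
    simpa using c2 2 0 1 (by decide) (by decide) (by decide) a 1 ha hg
  have e12 : ∀ a ∈ J, ∀ b ∈ J, csE 1 2 (by decide) (a * b) ∈ K := fun a ha b hb =>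
    c2 1 0 2 (by decide) (by decide) (by decide) a b ha (e02 b hb)
  have key : ∀ i j h, ∀ a ∈ J, ∀ b ∈ J, ∀ c ∈ J, csE i j h (a * b * c) ∈ K := by
    intro i j h a ha b hb c hc
    have hab := J.mul_mem_right b ha
    fin_cases i <;> fin_cases j
    · exact absurd rfl h
    · exact c1 0 2 1 (by decide) (by decide) (by decide) _ c (e02 _ hab) hc
    · exact e02 _ (J.mul_mem_right c hab)
    · exact c1 1 2 0 (by decide) (by decide) (by decide) _ c (e12 a ha b hb) hc
    · exact absurd rfl h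
    · exact e12 _ hab c hc
    · exact c1 2 1 0 (by decide) (by decide) (by decide) _ c (e21 _ hab) hc
    · exact e21 _ (J.mul_mem_right c hab)
    · exact absurd rfl h
  intro i j h x hx
  refine Submodule.mul_induction_on hx (fun y hy c hc => ?_) fun y z hy hz => ?_
  · refine Submodule.mul_induction_on hy (fun a ha b hb => key i j h a ha b hb c hc)
      fun y z hy hz => ?_
    rw [add_mul, ← cs_add]
    exact K.mul_mem hy hz
  · rw [← cs_add]
    exact K.mul_mem hy hz

theorem cs_key {I : Ideal R} {K : Subgroup (GI I)} (hK : K.IsSubnormal)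
    (hg : csE 0 1 (by decide) (1 : R) ∈ K.map (GI I).subtype) :
    ∃ c : ℕ, ∀ i j h, ∀ a ∈ I ^ c, csE i j h a ∈ K.map (GI I).subtype := by
  induction hK with
  | top => exact ⟨1, fun i j h a ha => ⟨⟨_, cs_mem h (Or.inr (pow_one I ▸ ha))⟩, trivial, rfl⟩⟩
  | step K L hle _ hN ih =>
    obtain ⟨c, hc⟩ := ih (Subgroup.map_mono hle hg)
    refine ⟨c + c + c, fun i j h a ha => cs_step ?_ hg hc i j h a (by rwa [← pow_add, ← pow_add])⟩
    rintro _ ⟨x, hx, rfl⟩ _ ⟨y, hy, rfl⟩
    exact ⟨y * x * y⁻¹, (Subgroup.normal_subgroupOf_iff hle).1 hN x y hx hy, rfl⟩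

theorem GI_sub (I : Ideal R) :
    ∃ g : GI I, (Subgroup.zpowers g).IsSubnormal → IsNilpotent I := by
  refine ⟨⟨csE 0 1 (by decide) 1, cs_mem _ (Or.inl (by decide))⟩, fun h => ?_⟩
  obtain ⟨c, hc⟩ := cs_key h ⟨_, Subgroup.mem_zpowers _, rfl⟩
  refine ⟨c, eq_bot_iff.2 fun a ha => ?_⟩
  have h1 := hc 1 0 (by decide) a ha
  rw [MonoidHom.map_zpowers] at h1
  have h2 := congrArg Units.val (Subgroup.mem_zpowers_iff.1 h1 |>.elim fun z hz =>
    hz ▸ (Commute.zpow_self _ z).eq :
      csE 1 0 (by decide) a * csE 0 1 (by decide) 1 = csE 0 1 (by decide) 1 * csE 1 0 (by decide) a)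
  have h3 := congrFun (congrFun h2 0) 0
  simpa [csE, Matrix.transvection, Matrix.mul_apply, Fin.sum_univ_three] using h3

end Pool.Agent.Lib.MP_b39e30_al.Rc
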