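import Pool.Agent.Lib.MP_b39e30_al.Lin.GDefs

/-!
The elements of a matrix group whose entries lie in a subalgebra.
-/

set_option autoImplicit false

namespace Pool.Agent.Lib.MP_b39e30_al.Rc

open Pool.Agent.Lib.MP_b39e30_al.Lin

variable {ι : Type} [Fintype ι] [DecidableEq ι] {k B : Type*} [CommRing k] [CommRing B]
  [Algebra k B] {Γ : Type*} [Group Γ]

/-- The elements whose matrix and inverse matrix have entries in `A`. -/
def ent (ρ : Γ →* Matrix ι ι B) (A : Subalgebra k B) : Subgroup Γ where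
  carrier := {x | (∀ a b, ρ x a b ∈ A) ∧ ∀ a b, ρ x⁻¹ a b ∈ A}
  one_mem' := by
    have h : ∀ a b, ρ 1 a b ∈ A := fun a b => by
      rw [map_one, Matrix.one_apply]
      split_ifs
      exacts [one_mem _, zero_mem _]
    exact ⟨h, by rwa [inv_one]⟩
  mul_mem' := fun {x y} hx hy =>
    ⟨fun a b => by
      rw [map_mul, Matrix.mul_apply]
      exact sum_mem fun c _ => mul_mem (hx.1 a c) (hy.1 c b), fun a b => by
      rw [mul_inv_rev, map_mul, Matrix.mul_apply]
      exact sum_mem fun c _ => mul_mem (hy.2 a c) (hx.2 c b)⟩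
  inv_mem' := fun {x} hx => ⟨hx.2, by rw [inv_inv]; exact hx.1⟩

/-- The representation over the subalgebra. -/
def entHom (ρ : Γ →* Matrix ι ι B) (A : Subalgebra k B) : ent ρ A →* Matrix ι ι A where
  toFun x := Matrix.of fun a b => ⟨ρ x a b, x.2.1 a b⟩
  map_one' := by
    ext a b
    by_cases h : a = b <;> simp [Matrix.one_apply, h]
  map_mul' x y := by
    ext a b
    simp [Matrix.mul_apply]

theorem entHom_val (ρ : Γ →* Matrix ι ι B) (A : Subalgebra k B) (x : ent ρ A) :
    A.val.toRingHom.mapMatrix (entHom ρ A x) = ρ x := rfl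

theorem ent_inj (A : Subalgebra k B) :
    Function.Injective (A.val.toRingHom.mapMatrix : Matrix ι ι A →+* Matrix ι ι B) :=
  fun _ _ h => Matrix.ext fun a b => Subtype.ext (congrFun (congrFun h a) b)

theorem eng_sub {n : ℕ} {g : Γ} (h : Eng n g) (H : Subgroup Γ) (hg : g ∈ H) :
    Eng n (⟨g, hg⟩ : H) := fun x => Subtype.ext <| by
  have h1 : Function.Semiconj H.subtype (fun y => y⁻¹ * (⟨g, hg⟩ : H)⁻¹ * y * ⟨g, hg⟩)
      (fun y => y⁻¹ * g⁻¹ * y * g) := fun _ => rfl
  exact (h1.iterate_right n x).trans (h x)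

theorem eng_pi {n : ℕ} {g : Γ} (h : Eng n g) (C : Type*) : Eng n (fun _ : C => g) :=
  fun x => funext fun c => by
    have h1 : Function.Semiconj (fun y : C → Γ => y c)
        (fun y => y⁻¹ * (fun _ : C => g)⁻¹ * y * fun _ : C => g)
        (fun y => y⁻¹ * g⁻¹ * y * g) := fun _ => rfl
    exact (h1.iterate_right n x).trans (h (x c))

/-- The commutator of the conjugate of `g` by `x.1` with `x.2`. -/
def cm (g : Γ) (x : Γ × Γ) : Γ := (x.1⁻¹ * g * x.1)⁻¹ * x.2⁻¹ * (x.1⁻¹ * g * x.1) * x.2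

end Pool.Agent.Lib.MP_b39e30_al.Rc
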