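import Pool.Agent.Lib.MP_b39e30_al.Rc.Fin

/-!
Specialisation to finite fields.
-/

set_option autoImplicit false

namespace Pool.Agent.Lib.MP_b39e30_al.Rc

open Pool.Agent.Lib.MP_b39e30_al.Lin

theorem fin_point (p : ℕ) [Fact p.Prime] (A : Type) [CommRing A] [IsDomain A]
    [Algebra (ZMod p) A] [Algebra.FiniteType (ZMod p) A] {x : A} (hx : x ≠ 0) :
    ∃ (F : Type) (_ : Field F) (_ : IsAlgClosed F) (_ : CharP F p) (φ : A →+* F),
      (Set.range φ).Finite ∧ φ x ≠ 0 := by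
  have : IsJacobsonRing A := isJacobsonRing_of_finiteType (A := ZMod p)
  have h1 : (⊥ : Ideal A).jacobson = ⊥ :=
    IsJacobsonRing.out inferInstance Ideal.isPrime_bot.isRadical
  obtain ⟨m, hm, hxm⟩ : ∃ m : Ideal A, m.IsMaximal ∧ x ∉ m := by
    by_contra h
    refine hx (Ideal.mem_bot.1 (h1 ▸ Ideal.mem_sInf.2 fun {m} hm => by_contra fun e => ?_))
    exact h ⟨m, hm.2, e⟩
  let _ := Ideal.Quotient.field m
  have : Module.Finite (ZMod p) (A ⧸ m) := finite_of_finite_type_of_isJacobsonRing _ _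
  have : Finite (A ⧸ m) := Module.finite_of_finite (ZMod p)
  have : CharP (A ⧸ m) p := charP_of_injective_algebraMap (algebraMap (ZMod p) _).injective p
  refine ⟨AlgebraicClosure (A ⧸ m), inferInstance, inferInstance, inferInstance,
    (algebraMap (A ⧸ m) _).comp (Ideal.Quotient.mk m), ?_, fun e => hxm ?_⟩
  · exact (Set.finite_range (algebraMap (A ⧸ m) (AlgebraicClosure (A ⧸ m)))).subset
      fun _ ⟨y, e⟩ => ⟨_, e⟩
  · exact Ideal.Quotient.eq_zero_iff_mem.1
      ((map_eq_zero (algebraMap (A ⧸ m) (AlgebraicClosure (A ⧸ m)))).1 e)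

theorem spec_unip {ι : Type} [Fintype ι] [DecidableEq ι] {K : Type} [Field K]
    {p : ℕ} [Fact p.Prime] [CharP K p] {Γ : Type*} [Group Γ] (ρ : Γ →* Matrix ι ι K)
    {n : ℕ} {g : Γ} (h : Eng n g) (j : ℕ) (l : List (Γ × Γ))
    (hc : ∀ x ∈ l, Commute (ρ x.2) (ρ (x.1⁻¹ * g ^ p ^ j * x.1)))
    (hl : l.length = Fintype.card ι) : (l.map fun x => ρ (cm g x) - 1).prod = 0 := by
  classical
  let _ := ZMod.algebra K p
  obtain ⟨T, hT⟩ : ∃ T : Set K, T = ⋃ y ∈ {y | y ∈ g :: (l.map Prod.fst ++ l.map Prod.snd)},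
      (Set.range fun q : ι × ι => ρ y q.1 q.2) ∪ Set.range fun q : ι × ι => ρ y⁻¹ q.1 q.2 :=
    ⟨_, rfl⟩
  have hf : T.Finite := hT ▸ (List.finite_toSet _).biUnion fun y _ =>
    (Set.finite_range _).union (Set.finite_range _)
  have hm : ∀ y ∈ g :: (l.map Prod.fst ++ l.map Prod.snd), y ∈ ent ρ (Algebra.adjoin (ZMod p) T) :=
    fun y hy => ⟨fun a b => Algebra.subset_adjoin
        (hT ▸ Set.mem_biUnion hy (Or.inl ⟨(a, b), rfl⟩)),
      fun a b => Algebra.subset_adjoin (hT ▸ Set.mem_biUnion hy (Or.inr ⟨(a, b), rfl⟩))⟩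
  have : Algebra.FiniteType (ZMod p) (Algebra.adjoin (ZMod p) T) :=
    (Subalgebra.fg_iff_finiteType _).1 (Subalgebra.fg_def.2 ⟨T, hf, rfl⟩)
  generalize Algebra.adjoin (ZMod p) T = A at hm this
  have hg := hm g List.mem_cons_self
  obtain ⟨l', rfl⟩ : ∃ l' : List (ent ρ A × ent ρ A), l'.map (fun x => (x.1.1, x.2.1)) = l :=
    ⟨l.attach.map fun x =>
      (⟨x.1.1, hm _ (List.mem_cons_of_mem _ (List.mem_append_left _ (List.mem_map_of_mem x.2)))⟩,
       ⟨x.1.2, hm _ (List.mem_cons_of_mem _ (List.mem_append_right _ (List.mem_map_of_mem x.2)))⟩),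
      by rw [List.map_map]; exact List.attach_map_subtype_val l⟩
  have key : (l'.map fun x => entHom ρ A (cm ⟨g, hg⟩ x) - 1).prod = 0 := by
    ext1 a b
    by_contra hx
    obtain ⟨F, _, _, _, φ, h1, h2⟩ := fin_point p A hx
    have h3 := fin_unip (p := p) (φ.mapMatrix.toMonoidHom.comp (entHom ρ A))
      ((Set.Finite.pi' fun _ : ι => Set.Finite.pi' fun _ : ι => h1).subset
        (by rintro _ ⟨y, rfl⟩ a b; exact ⟨_, rfl⟩)) (eng_sub h _ hg) j l'
      (fun x hx => by
        refine Commute.map (f := φ.mapMatrix) (ent_inj A ?_)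
        exact ((map_mul A.val.toRingHom.mapMatrix _ _).trans
          (hc _ (List.mem_map_of_mem hx)).eq).trans (map_mul A.val.toRingHom.mapMatrix _ _).symm)
      (by simpa using hl)
    have h4 : φ.mapMatrix (l'.map fun x => entHom ρ A (cm ⟨g, hg⟩ x) - 1).prod = 0 := by
      rw [map_list_prod, List.map_map, ← h3]
      simp only [Function.comp_def, map_sub, map_one]
      rfl
    exact h2 (congrFun (congrFun h4 a) b)
  have h5 := congrArg A.val.toRingHom.mapMatrix key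
  rw [map_list_prod, List.map_map, map_zero] at h5
  rw [List.map_map, ← h5]
  simp only [Function.comp_def, map_sub, map_one]
  rfl

end Pool.Agent.Lib.MP_b39e30_al.Rc
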