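import Pool.Agent.Lib.MP_b39e30_al.Rc.Krull
import Pool.Agent.Lib.MP_b39e30_al.Rc.Spec
import Pool.Agent.Lib.MP_b39e30_al.Lin.GUltra

/-!
The theorem over fields of every characteristic, uniformly over all prime ideals of a ring.
-/

set_option autoImplicit false

namespace Pool.Agent.Lib.MP_b39e30_al.Rc

open Pool.Agent.Lib.MP_b39e30_al.Lin

theorem lift_list {α β : Type*} (f : α → β) (s : Set α) (l : List β) (h : ∀ b ∈ l, b ∈ f '' s) :
    ∃ l' : List α, (∀ a ∈ l', a ∈ s) ∧ l'.map f = l := by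
  induction l with
  | nil => exact ⟨[], by simp, rfl⟩
  | cons a l ih =>
    obtain ⟨l', h2, h3⟩ := ih fun W hW => h W (List.mem_cons_of_mem _ hW)
    obtain ⟨b, hb, rfl⟩ := h a List.mem_cons_self
    exact ⟨b :: l', List.forall_mem_cons.2 ⟨hb, h2⟩, by rw [List.map_cons, h3]⟩

theorem finite_classP {ι : Type} [Fintype ι] [DecidableEq ι] {K : Type} [Field K] (p : ℕ)
    [Fact p.Prime] [CharP K p] {Γ : Type*} [Group Γ] (ρ : Γ →* Matrix ι ι K)
    (hρ : Submodule.span K (Set.range ρ) = ⊤) {n : ℕ} {g : Γ} (h : Eng n g) :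
    {z | ∃ y : Γ, z = ρ (y⁻¹ * g * y)}.Finite := by
  obtain ⟨j, hj⟩ := pow_class (p := p) ρ h
  have h1 := gfin_zero ρ hρ (J := (fun t => ρ (cm g t) - 1) ''
      {t : Γ × Γ | ∀ y, Commute (ρ t.2) (ρ (y⁻¹ * g ^ p ^ j * y))}) (N := Fintype.card ι) (by
    rintro _ ⟨t, ht, rfl⟩ y
    refine ⟨(t.1 * y⁻¹, y * t.2 * y⁻¹), fun w => ?_, ?_⟩
    · have h2 := congrArg (fun Z => ρ y * Z * ρ y⁻¹) (ht (w * y)).eq
      simp only [← map_mul] at h2
      rw [Commute, SemiconjBy, ← map_mul, ← map_mul]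
      convert h2 using 2 <;> group
    · simp only [mul_sub, sub_mul, mul_one, ← map_mul, mul_inv_cancel, map_one, cm]
      congr 2
      group) fun l hl hN => by
    obtain ⟨l', h2, rfl⟩ := lift_list _ _ l hl
    rw [List.length_map] at hN
    rw [← List.take_append_drop (Fintype.card ι) l', List.map_append, List.prod_append,
      spec_unip (p := p) ρ h j _ (fun x hx => h2 x (List.mem_of_mem_take hx) x.1)
        (List.length_take_of_le hN), zero_mul]
  have : Finite {z | ∃ y : Γ, z = ρ (y⁻¹ * g ^ p ^ j * y)} := hj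
  let Φ : Γ → {z | ∃ y : Γ, z = ρ (y⁻¹ * g ^ p ^ j * y)} →
      {z | ∃ y : Γ, z = ρ (y⁻¹ * g ^ p ^ j * y)} := fun y z => ⟨ρ y⁻¹ * z.1 * ρ y, by
    obtain ⟨w, hw⟩ := z.2
    refine ⟨w * y, ?_⟩
    rw [hw, ← map_mul, ← map_mul]
    congr 1
    group⟩
  have h3 : ∀ y y', Φ y = Φ y' → ρ (y⁻¹ * g * y) = ρ (y'⁻¹ * g * y') := fun y y' e => by
    have h4 := sub_eq_zero.1 (h1 _ ⟨(1, y * y'⁻¹), fun w => by
      have h5 := congrArg (fun Z => ρ y * Z * ρ y'⁻¹)
        (congrArg Subtype.val (congrFun e ⟨_, w, rfl⟩))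
      simp only [Φ, ← map_mul] at h5
      rw [Commute, SemiconjBy, ← map_mul, ← map_mul]
      convert h5.symm using 2 <;> group, rfl⟩)
    have h6 : y⁻¹ * g * y = y'⁻¹ * g * cm g (1, y * y'⁻¹) * y' := by
      simp only [cm]
      group
    rw [h6, map_mul ρ _ y', map_mul ρ _ (cm _ _), h4, mul_one, ← map_mul]
  refine (Set.finite_range fun u => ρ ((Function.invFun Φ u)⁻¹ * g * Function.invFun Φ u)).subset ?_
  rintro _ ⟨y, rfl⟩
  exact ⟨Φ y, h3 _ _ (Function.invFun_eq ⟨y, rfl⟩)⟩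

theorem finite_class' {ι : Type} [Fintype ι] [DecidableEq ι] {K : Type} [Field K]
    {Γ : Type*} [Group Γ] (ρ : Γ →* Matrix ι ι K)
    (hρ : Submodule.span K (Set.range ρ) = ⊤) {n : ℕ} {g : Γ} (h : Eng n g) :
    {z | ∃ y : Γ, z = ρ (y⁻¹ * g * y)}.Finite := by
  obtain ⟨p, hp⟩ := CharP.exists K
  rcases CharP.char_is_prime_or_zero K p with h1 | rfl
  · have := Fact.mk h1
    exact finite_classP p ρ hρ h
  · have := CharP.charP_to_charZero K
    exact finite_class ρ hρ h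

theorem simple' {r : ℕ} {K : Type} [Field K] {Γ : Type*} [Group Γ]
    (σ : Γ →* Matrix (Fin r) (Fin r) K) (hσ : Submodule.span K (Set.range σ) = ⊤) {n : ℕ} {g : Γ}
    (h : Eng n g) : ∃ e, ∀ e', e ≤ e' → ∀ f, σ (zw g f e') = 1 := by
  have hφ := σ.toHomUnits.rangeRestrict_surjective
  have hi : Function.Injective fun z : σ.toHomUnits.range => (z.1 : Matrix (Fin r) (Fin r) K) :=
    Units.val_injective.comp Subtype.val_injective
  obtain ⟨e, he⟩ := zw_of_nilpotent (baer_finite (h.map _ hφ)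
    (((finite_class' σ hσ h).preimage hi.injOn).subset (by
      rintro _ ⟨y, rfl⟩
      obtain ⟨y, rfl⟩ := hφ y
      exact ⟨y, by rw [← map_inv, ← map_mul, ← map_mul]; rfl⟩)))
  refine ⟨e, fun e' h1 f => ?_⟩
  have h2 := (map_zw σ.toHomUnits.rangeRestrict g f e').trans (zw_mono (he _) h1)
  exact congrArg (fun z : σ.toHomUnits.range => (z.1 : Matrix (Fin r) (Fin r) K)) h2

theorem jac' {K A : Type} [Field K] [IsAlgClosed K] [Ring A] [Algebra K A]
    [FiniteDimensional K A] {Γ : Type*} [Group Γ] (ρ : Γ →* A)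
    (hρ : Submodule.span K (Set.range ρ) = ⊤) {n : ℕ} {g : Γ} (h : Eng n g) :
    ∃ e, ∀ f, ρ (zw g f e) - 1 ∈ Ideal.jacobson (⊥ : Ideal A) := by
  have : IsArtinianRing A := IsArtinianRing.of_finite K _
  obtain ⟨J, ⟨e, he⟩, hJ⟩ := IsArtinian.set_has_minimal
    {J : Submodule A A | ∃ e, ∀ e', e ≤ e' → ∀ f, ρ (zw g f e') - 1 ∈ J}
    ⟨⊤, 0, fun _ _ _ => Submodule.mem_top⟩
  refine ⟨e, fun f => Ideal.mem_sInf.2 fun {m} hm => ?_⟩
  obtain ⟨r, π, h1, h2⟩ := burnside (K := K) m hm.2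
  obtain ⟨d, hd⟩ := simple' (π.toMonoidHom.comp ρ) (by
    have e1 : Set.range (π.toMonoidHom.comp ρ) = π.toLinearMap '' Set.range ρ := by
      rw [← Set.range_comp]
      rfl
    rw [e1, ← Submodule.map_span, hρ, Submodule.map_top, LinearMap.range_eq_top]
    exact h1) h
  have h3 := hJ (J ⊓ m) ⟨max e d, fun e' h4 f => ⟨he e' ((le_max_left _ _).trans h4) f,
    h2 _ (by rw [map_sub, map_one, sub_eq_zero]; exact hd e' ((le_max_right _ _).trans h4) f)⟩⟩
  have h4 : J ⊓ m = J := (eq_or_lt_of_le inf_le_left).resolve_right h3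
  exact (inf_eq_left.1 h4) (he e le_rfl f)

/-- The theorem over an algebraically closed field of any characteristic. -/
theorem field_thm' {ι : Type} [Fintype ι] [DecidableEq ι] {K : Type} [Field K]
    [IsAlgClosed K] {Γ : Type*} [Group Γ] (ρ : Γ →* Matrix ι ι K) {n : ℕ} {g : Γ}
    (h : Eng n g) : ∃ e, PP ρ g e (Fintype.card ι) := by
  let A := Algebra.adjoin K (Set.range ρ)
  let ρ' : Γ →* A := ρ.codRestrict A fun x => Algebra.subset_adjoin ⟨x, rfl⟩
  have hρ : Submodule.span K (Set.range ρ') = ⊤ := by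
    refine eq_top_iff.2 fun x _ => ?_
    have h1 : x.1 ∈ Subalgebra.toSubmodule A := x.2
    rw [Algebra.adjoin_eq_span, ← MonoidHom.coe_mrange, Submonoid.closure_eq,
      MonoidHom.coe_mrange] at h1
    have e1 : Set.range ρ = A.val.toLinearMap '' Set.range ρ' := by
      rw [← Set.range_comp]
      rfl
    rw [e1, ← Submodule.map_span] at h1
    obtain ⟨y, hy, h2⟩ := h1
    rwa [← Subtype.ext h2]
  obtain ⟨e, he⟩ := jac' ρ' hρ h
  have : IsArtinianRing A := IsArtinianRing.of_finite K _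
  obtain ⟨N, hN⟩ := IsArtinianRing.isNilpotent_jacobson_bot (R := A)
  refine ⟨e, fun u f => nil_card (S := A.val '' Ideal.jacobson (⊥ : Ideal A)) (N := N)
    (fun l hl h1 => ?_) _ (fun W hW => ?_) (List.length_ofFn)⟩
  · obtain ⟨l', h2, h3⟩ := lift_list _ _ l hl
    have h4 := gthm_prod _ l' h2
    rw [← List.length_map (f := A.val), h3, h1, hN, Submodule.zero_eq_bot, Ideal.mem_bot] at h4
    rw [← h3, ← map_list_prod, h4, map_zero]
  · obtain ⟨i, rfl⟩ := List.mem_ofFn.1 hW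
    exact ⟨ρ' (u i) * (ρ' (zw g (f i) e) - 1), Ideal.mul_mem_left _ _ (he _), rfl⟩

section

variable {ι : Type} [Fintype ι] [DecidableEq ι] {R : Type} [CommRing R] {Γ : Type*} [Group Γ]

theorem prime' (p : Ideal R) [p.IsPrime] (ρ : Γ →* Matrix ι ι R) {n : ℕ} {g : Γ}
    (h : Eng n g) : ∃ e, ∀ (u : Fin (Fintype.card ι) → Γ) (f : Fin (Fintype.card ι) → ℕ → Γ)
      (a b : ι), ulPr ρ g e u f a b ∈ p := by
  let K := AlgebraicClosure (FractionRing (R ⧸ p))
  let φ : R →+* K := (algebraMap (FractionRing (R ⧸ p)) K).comp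
    ((algebraMap (R ⧸ p) (FractionRing (R ⧸ p))).comp (Ideal.Quotient.mk p))
  have hker : ∀ x, φ x = 0 ↔ x ∈ p := by
    intro x
    simp only [φ, RingHom.comp_apply,
      map_eq_zero_iff _ (algebraMap (FractionRing (R ⧸ p)) K).injective,
      map_eq_zero_iff _ (IsFractionRing.injective (R ⧸ p) (FractionRing (R ⧸ p))),
      Ideal.Quotient.eq_zero_iff_mem]
  exact (field_thm' (φ.mapMatrix.toMonoidHom.comp ρ) h).imp fun e he => (ul_iff φ hker ρ g e _).1 he

theorem unif' (ρ : Γ →* Matrix ι ι R) {n : ℕ} {g : Γ} (h : Eng n g) :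
    ∃ e, ∀ p : Ideal R, p.IsPrime →
      PP ((Ideal.Quotient.mk p).mapMatrix.toMonoidHom.comp ρ) g e (Fintype.card ι) := by
  by_contra hne
  push Not at hne
  choose p hp hP using hne
  have hq := ulId_prime hp
  obtain ⟨e, he⟩ := prime' (ulId p) (ulRep ρ) (eng_pi h ℕ)
  have h2 : ∀ c, ∃ (u : Fin (Fintype.card ι) → Γ) (f : Fin (Fintype.card ι) → ℕ → Γ),
      e ≤ c → ¬ ∀ a b, ulPr ρ g e u f a b ∈ p c := fun c => by
    by_contra h3
    push Not at h3
    exact hP c (((ul_iff _ (fun _ => Ideal.Quotient.eq_zero_iff_mem) ρ g e _).2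
      fun u f => (h3 u f).2).mono (h3 1 1).1)
  choose u f h2 using h2
  have h3 : ∀ᶠ c in (Filter.hyperfilter ℕ : Filter ℕ), ∀ a b,
      ulPr (ulRep ρ) (fun _ => g) e (fun i c => u c i) (fun i j c => f c i j) a b c ∈ p c :=
    Filter.eventually_all.2 fun a => Filter.eventually_all.2 fun b => he _ _ a b
  obtain ⟨c, h4, h5⟩ :=
    (h3.and (Nat.hyperfilter_le_atTop (Filter.eventually_ge_atTop e))).exists
  refine h2 c h5 fun a b => ?_
  have h6 := ul_map (Pi.evalRingHom (fun _ : ℕ => R) c).mapMatrix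
    (Pi.evalMonoidHom (fun _ : ℕ => Γ) c) (ρ := ulRep ρ) (σ := ρ) (fun _ => rfl) (fun _ => g) e
    (fun i c => u c i) fun i j c => f c i j
  have h7 := congrFun (congrFun h6 a) b
  exact h7 ▸ h4 a b

end

end Pool.Agent.Lib.MP_b39e30_al.Rc
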