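import Pool.Agent.Lib.MP_b39e30_al.Rc.Kol
import Pool.Agent.Lib.MP_b39e30_al.Rc.Ent
import Pool.Agent.Lib.MP_b39e30_al.Lin.GBaer

/-!
The case of a finite matrix group in characteristic `p`.
-/

set_option autoImplicit false

namespace Pool.Agent.Lib.MP_b39e30_al.Rc

open Pool.Agent.Lib.MP_b39e30_al.Lin

theorem fin_key {G : Type*} [Group G] [Finite G] (p : ℕ) [hp : Fact p.Prime] {n : ℕ} {g : G}
    (h : Eng n g) : ∃ P : Subgroup G, IsPGroup p P ∧ ∀ (j : ℕ) (a b : G),
      a ∈ Subgroup.normalClosure ({g} : Set G) → b ∈ Subgroup.normalClosure ({g} : Set G) →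
      a ^ p ^ j = b ^ p ^ j → a⁻¹ * b ∈ P := by
  have hN := baer_finite h (Set.toFinite _)
  obtain ⟨P⟩ : Nonempty (Sylow p (Subgroup.normalClosure ({g} : Set G))) := inferInstance
  have hP : (P : Subgroup (Subgroup.normalClosure ({g} : Set G))).Normal :=
    Sylow.normal_of_normalizerCondition Group.normalizerCondition_of_isNilpotent P
  refine ⟨(P : Subgroup _).map (Subgroup.normalClosure ({g} : Set G)).subtype,
    P.isPGroup'.map _, fun j a b ha hb e => ?_⟩
  have hco : (Nat.card (Subgroup.normalClosure ({g} : Set G) ⧸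
      (P : Subgroup (Subgroup.normalClosure ({g} : Set G))))).Coprime (p ^ j) :=
    Nat.Coprime.pow_right j ((Nat.Prime.coprime_iff_not_dvd hp.out).2 P.not_dvd_index).symm
  have e1 : (⟨a, ha⟩ : Subgroup.normalClosure ({g} : Set G)) ^ p ^ j = ⟨b, hb⟩ ^ p ^ j :=
    Subtype.ext e
  have e2 : (QuotientGroup.mk ⟨a, ha⟩ : Subgroup.normalClosure ({g} : Set G) ⧸
      (P : Subgroup (Subgroup.normalClosure ({g} : Set G)))) = QuotientGroup.mk ⟨b, hb⟩ := by
    apply (powCoprime hco).injective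
    rw [powCoprime_apply, powCoprime_apply, ← QuotientGroup.mk_pow, ← QuotientGroup.mk_pow, e1]
  exact ⟨_, QuotientGroup.eq.1 e2, rfl⟩

theorem fin_unip {ι : Type} [Fintype ι] [DecidableEq ι] {K : Type} [Field K] [IsAlgClosed K]
    {p : ℕ} [Fact p.Prime] [CharP K p] {H : Type*} [Group H] (τ : H →* Matrix ι ι K)
    (hf : (Set.range τ).Finite) {n : ℕ} {g : H} (h : Eng n g) (j : ℕ) (l : List (H × H))
    (hc : ∀ x ∈ l, Commute (τ x.2) (τ (x.1⁻¹ * g ^ p ^ j * x.1)))
    (hl : l.length = Fintype.card ι) : (l.map fun x => τ (cm g x) - 1).prod = 0 := by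
  rcases isEmpty_or_nonempty ι with hι | hι
  · exact Subsingleton.elim _ _
  obtain ⟨σ, hσ⟩ : ∃ σ : τ.toHomUnits.range →* Matrix ι ι K,
      σ = (Units.coeHom _).comp τ.toHomUnits.range.subtype := ⟨_, rfl⟩
  obtain ⟨π, hπ⟩ : ∃ π : H →* τ.toHomUnits.range, π = τ.toHomUnits.rangeRestrict := ⟨_, rfl⟩
  have hsur : Function.Surjective π := hπ ▸ τ.toHomUnits.rangeRestrict_surjective
  have hσπ : ∀ x, σ (π x) = τ x := fun x => by
    rw [hσ, hπ]
    rfl
  have hinj : Function.Injective σ := by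
    rw [hσ]
    exact fun a b e => Subtype.ext (Units.ext e)
  have hfin : Finite τ.toHomUnits.range := by
    have := hf.to_subtype
    refine Finite.of_injective (fun a => (⟨σ a, ?_⟩ : Set.range τ)) ?_
    · obtain ⟨x, rfl⟩ := hsur a
      exact ⟨x, (hσπ x).symm⟩
    · exact fun a b e => hinj (congrArg Subtype.val e)
  obtain ⟨P, hP, hkey⟩ := fin_key p (h.map π hsur)
  have hmem : ∀ x ∈ l, π (cm g x) ∈ P := fun x hx => by
    have hn : (Subgroup.normalClosure ({π g} : Set τ.toHomUnits.range)).Normal := inferInstance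
    have ha : (π x.1)⁻¹ * π g * (π x.1)⁻¹⁻¹ ∈ Subgroup.normalClosure ({π g} : Set _) :=
      hn.conj_mem _ (Subgroup.subset_normalClosure rfl) _
    have hb := hn.conj_mem _ ha (π x.2)⁻¹
    have hcm : Commute (π x.2) ((π x.1)⁻¹ * π g ^ p ^ j * (π x.1)⁻¹⁻¹) := by
      apply hinj
      have e : (π x.1)⁻¹ * π g ^ p ^ j * (π x.1)⁻¹⁻¹ = π (x.1⁻¹ * g ^ p ^ j * x.1) := by
        simp
      rw [e, map_mul σ, map_mul σ, hσπ, hσπ]
      exact hc x hx
    have h1 := hkey j _ _ ha hb (by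
      rw [conj_pow, conj_pow, conj_pow, hcm.inv_left.eq, inv_inv (π x.2), inv_mul_cancel_right])
    have e : π (cm g x) = ((π x.1)⁻¹ * π g * (π x.1)⁻¹⁻¹)⁻¹ *
        ((π x.2)⁻¹ * ((π x.1)⁻¹ * π g * (π x.1)⁻¹⁻¹) * (π x.2)⁻¹⁻¹) := by
      simp [cm, mul_assoc]
    rwa [e]
  have hnil : ∀ u : P, IsNilpotent ((σ.comp P.subtype) u - 1) := fun u => by
    obtain ⟨k, hk⟩ := hP u
    refine ⟨p ^ k, ?_⟩
    rw [sub_pow_char_pow_of_commute p k (Commute.one_right _), ← map_pow, hk, map_one, one_pow,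
      sub_self]
  have h1 := kolchin (σ.comp P.subtype) hnil
    (l.attach.map fun x => (⟨π (cm g x.1), hmem x.1 x.2⟩ : P)) (by simpa using hl)
  rw [List.map_map] at h1
  have e : l.attach.map ((fun u : P => (σ.comp P.subtype) u - 1) ∘
      fun x => (⟨π (cm g x.1), hmem x.1 x.2⟩ : P)) = l.map fun x => τ (cm g x) - 1 := by
    rw [← List.attach_map_val (l := l) (f := fun x => τ (cm g x) - 1)]
    refine List.map_congr_left fun x _ => ?_
    exact congrArg (· - 1) (hσπ _)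
  rwa [e] at h1

end Pool.Agent.Lib.MP_b39e30_al.Rc
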