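import Mathlib

/-!
An ideal generated by nilpotent elements of bounded index is nil of bounded index modulo every
positive integer.
-/

set_option autoImplicit false

namespace Pool.Agent.Lib.MP_b39e30_al.Rc

theorem frob_prime (m p : ℕ) (hp : p.Prime) (R : Type) [CommRing R] (S : Set R)
    (h : ∀ a ∈ S, a ^ m = 0) (s : R) (hs : s ∈ Ideal.span S) : (p : R) ∣ s ^ p ^ m := by
  induction hs using Submodule.span_induction with
  | mem a ha => rw [pow_eq_zero_of_le (Nat.lt_pow_self hp.one_lt).le (h a ha)]; exact dvd_zero _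
  | zero => rw [zero_pow (pow_ne_zero _ hp.ne_zero)]; exact dvd_zero _
  | add x y _ _ hx hy =>
    obtain ⟨r, hr⟩ := exists_add_pow_prime_pow_eq hp x y m
    rw [hr, mul_assoc, mul_assoc]
    exact dvd_add (dvd_add hx hy) (dvd_mul_right _ _)
  | smul c x _ hx =>
    rw [smul_eq_mul, mul_pow]
    exact hx.mul_left _

theorem frob_dvd (m M : ℕ) (hM : M ≠ 0) : ∃ T : ℕ, ∀ (R : Type) [CommRing R] (S : Set R),
    (∀ a ∈ S, a ^ m = 0) → ∀ s ∈ Ideal.span S, (M : R) ∣ s ^ T := by
  induction M using induction_on_primes with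
  | zero => exact absurd rfl hM
  | one => exact ⟨0, fun R _ S _ s _ => by rw [Nat.cast_one]; exact one_dvd _⟩
  | prime_mul p a hp ih =>
    obtain ⟨T, hT⟩ := ih (right_ne_zero_of_mul hM)
    refine ⟨p ^ m + T, fun R _ S h s hs => ?_⟩
    rw [Nat.cast_mul, pow_add]
    exact mul_dvd_mul (frob_prime m p hp R S h s hs) (hT R S h s hs)

theorem frob (m M : ℕ) (hM : M ≠ 0) : ∃ T : ℕ, ∀ (R : Type) [CommRing R] (S : Set R),
    (∀ a ∈ S, a ^ m = 0 ∧ M • a = 0) → ∀ s ∈ Ideal.span S, s ^ T = 0 := by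
  obtain ⟨T, hT⟩ := frob_dvd m M hM
  refine ⟨T + 1, fun R _ S h s hs => ?_⟩
  obtain ⟨r, hr⟩ := hT R S (fun a ha => (h a ha).1) s hs
  have h0 : (M : R) * s = 0 := by
    clear hr
    induction hs using Submodule.span_induction with
    | mem a ha => rw [← nsmul_eq_mul, (h a ha).2]
    | zero => exact mul_zero _
    | add x y _ _ hx hy => rw [mul_add, hx, hy, add_zero]
    | smul c x _ hx => rw [smul_eq_mul, mul_left_comm, hx, mul_zero]
  rw [pow_succ, hr, mul_right_comm, h0, zero_mul]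

end Pool.Agent.Lib.MP_b39e30_al.Rc
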