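import Pool.Agent.Lib.MP_b39e30_al.Lin.GNil

/-!
Kolchin's theorem.
-/

set_option autoImplicit false

namespace Pool.Agent.Lib.MP_b39e30_al.Rc

open Pool.Agent.Lib.MP_b39e30_al.Lin

theorem kol_prod {A : Type*} [Ring A] (J : Ideal A) (l : List A) (hl : ∀ a ∈ l, a ∈ J) :
    l.prod ∈ J ^ l.length := by
  induction l using List.reverseRecOn with
  | nil => simp [Submodule.pow_zero]
  | append_singleton l s ih =>
    rw [List.length_append, List.length_singleton, Submodule.pow_succ, List.prod_append,
      List.prod_singleton]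
    exact Ideal.mul_mem_mul (ih fun a ha => hl a (List.mem_append_left _ ha)) (hl s (by simp))

theorem kol_simple {r : ℕ} {K : Type} [Field K] {P : Type*} [Group P]
    (σ : P →* Matrix (Fin r) (Fin r) K) (hσ : Submodule.span K (Set.range σ) = ⊤)
    (h : ∀ u, IsNilpotent (σ u - 1)) (u : P) : σ u = 1 := by
  have h1 : ∀ v, (σ v).trace = (1 : Matrix (Fin r) (Fin r) K).trace := fun v => by
    have := (Matrix.isNilpotent_trace_of_isNilpotent (h v)).eq_zero
    rwa [Matrix.trace_sub, sub_eq_zero] at this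
  have h2 : ∀ X : Matrix (Fin r) (Fin r) K, (σ u * X).trace = (1 * X).trace := fun X => by
    have hX : X ∈ Submodule.span K (Set.range σ) := hσ ▸ Submodule.mem_top
    induction hX using Submodule.span_induction with
    | mem x hx =>
      obtain ⟨v, rfl⟩ := hx
      rw [← map_mul, one_mul, h1, h1]
    | zero => simp
    | add x y _ _ hx hy => rw [mul_add, mul_add, Matrix.trace_add, Matrix.trace_add, hx, hy]
    | smul a x _ hx =>
      rw [Matrix.mul_smul, Matrix.mul_smul, Matrix.trace_smul, Matrix.trace_smul, hx]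
  exact Matrix.ext_iff_trace_mul_right.2 h2

theorem kolchin {ι : Type} [Fintype ι] [DecidableEq ι] {K : Type} [Field K] [IsAlgClosed K]
    {P : Type*} [Group P] (τ : P →* Matrix ι ι K) (h : ∀ u, IsNilpotent (τ u - 1)) (l : List P)
    (hl : l.length = Fintype.card ι) : (l.map fun u => τ u - 1).prod = 0 := by
  let A := Algebra.adjoin K (Set.range τ)
  let ρ' : P →* A := τ.codRestrict A fun x => Algebra.subset_adjoin ⟨x, rfl⟩
  have hρ : Submodule.span K (Set.range ρ') = ⊤ := by
    refine eq_top_iff.2 fun x _ => ?_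
    have h1 : x.1 ∈ Subalgebra.toSubmodule A := x.2
    rw [Algebra.adjoin_eq_span, ← MonoidHom.coe_mrange, Submonoid.closure_eq,
      MonoidHom.coe_mrange] at h1
    have e1 : Set.range τ = A.val.toLinearMap '' Set.range ρ' := by
      rw [← Set.range_comp]
      rfl
    rw [e1, ← Submodule.map_span] at h1
    obtain ⟨y, hy, h2⟩ := h1
    rwa [← Subtype.ext h2]
  have hn : ∀ u, IsNilpotent (ρ' u - 1) := fun u => by
    obtain ⟨k, hk⟩ := h u
    refine ⟨k, Subtype.ext ?_⟩
    exact hk
  have he : ∀ u, ρ' u - 1 ∈ Ideal.jacobson (⊥ : Ideal A) := fun u => by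
    refine Ideal.mem_sInf.2 fun {m} hm => ?_
    obtain ⟨r, π, h1, h2⟩ := burnside (K := K) m hm.2
    have h3 := kol_simple (π.toMonoidHom.comp ρ') (by
      have e1 : Set.range (π.toMonoidHom.comp ρ') = π.toLinearMap '' Set.range ρ' := by
        rw [← Set.range_comp]
        rfl
      rw [e1, ← Submodule.map_span, hρ, Submodule.map_top, LinearMap.range_eq_top]
      exact h1) (fun v => by
        have h4 := (hn v).map π
        rw [map_sub, map_one] at h4
        exact h4) u
    exact h2 _ (by rw [map_sub, map_one, sub_eq_zero]; exact h3)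
  have : IsArtinianRing A := IsArtinianRing.of_finite K _
  obtain ⟨N, hN⟩ := IsArtinianRing.isNilpotent_jacobson_bot (R := A)
  refine nil_card (S := A.val '' Ideal.jacobson (⊥ : Ideal A)) (N := N)
    (fun l hl h1 => ?_) _ (fun W hW => ?_) (by rw [List.length_map, hl])
  · obtain ⟨l', h2, h3⟩ : ∃ l' : List A, (∀ a ∈ l', a ∈ Ideal.jacobson (⊥ : Ideal A)) ∧
        l'.map A.val = l := by
      clear h1
      induction l with
      | nil => exact ⟨[], by simp, rfl⟩
      | cons a l ih =>
        obtain ⟨l', h2, h3⟩ := ih fun W hW => hl W (List.mem_cons_of_mem _ hW)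
        obtain ⟨b, hb, rfl⟩ := hl a List.mem_cons_self
        exact ⟨b :: l', List.forall_mem_cons.2 ⟨hb, h2⟩, by rw [List.map_cons, h3]⟩
    have h4 := kol_prod _ l' h2
    rw [← List.length_map (f := A.val), h3, h1, hN, Submodule.zero_eq_bot, Ideal.mem_bot] at h4
    rw [← h3, ← map_list_prod, h4, map_zero]
  · obtain ⟨u, _, rfl⟩ := List.mem_map.1 hW
    exact ⟨ρ' u - 1, he u, rfl⟩

end Pool.Agent.Lib.MP_b39e30_al.Rc
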