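import Pool.Agent.Lib.MP_b39e30_al.Rc.Loc
import Pool.Agent.Lib.MP_b39e30_al.Rc.Ent

/-!
A power of a bounded left Engel element has a finite class in characteristic `p`.
-/

set_option autoImplicit false

namespace Pool.Agent.Lib.MP_b39e30_al.Rc

open Pool.Agent.Lib.MP_b39e30_al.Lin

/-- The representation of the families of group elements. -/
def piRep {ι : Type} [Fintype ι] [DecidableEq ι] {R : Type*} [CommRing R] {Γ : Type*} [Group Γ]
    (ρ : Γ →* Matrix ι ι R) (C : Type*) : (C → Γ) →* Matrix ι ι (C → R) where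
  toFun x := Matrix.of fun a b c => ρ (x c) a b
  map_one' := by
    ext a b c
    by_cases h : a = b <;> simp [Matrix.one_apply, h]
  map_mul' x y := by
    ext a b c
    simp [Matrix.mul_apply, Finset.sum_apply]

theorem pow_class {ι : Type} [Fintype ι] [DecidableEq ι] {K : Type} [Field K]
    {p : ℕ} [Fact p.Prime] [CharP K p] {Γ : Type*} [Group Γ] (ρ : Γ →* Matrix ι ι K)
    {n : ℕ} {g : Γ} (h : Eng n g) :
    ∃ j : ℕ, {z | ∃ y : Γ, z = ρ (y⁻¹ * g ^ p ^ j * y)}.Finite := by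
  have hp : p.Prime := Fact.out
  obtain ⟨j, φ, hn, hφ⟩ := exists_j (K := K) hp (ρ g) n
  let A : Subalgebra K (Γ → K) := Algebra.adjoin K (Set.range fun t : Bool × ι × ι =>
    fun x => (bif t.1 then ρ x else ρ x⁻¹) t.2.1 t.2.2)
  have hA : IsNoetherianRing A := by
    have : Algebra.FiniteType K A :=
      (Subalgebra.fg_iff_finiteType _).1 (Subalgebra.fg_def.2 ⟨_, Set.finite_range _, rfl⟩)
    exact Algebra.FiniteType.isNoetherianRing K A
  have hc : ∀ c : Γ, (fun _ => c) ∈ ent (piRep ρ Γ) A := fun c =>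
    ⟨fun a b => A.algebraMap_mem (ρ c a b), fun a b => A.algebraMap_mem (ρ c⁻¹ a b)⟩
  have hid : (fun x => x) ∈ ent (piRep ρ Γ) A :=
    ⟨fun a b => Algebra.subset_adjoin ⟨(true, a, b), rfl⟩,
      fun a b => Algebra.subset_adjoin ⟨(false, a, b), rfl⟩⟩
  have hs : entHom (piRep ρ Γ) A ((⟨_, hc g⟩ : ent (piRep ρ Γ) A) ^ p ^ j) ∈ Algebra.adjoin K
      {entHom (piRep ρ Γ) A ((⟨_, hc g⟩ : ent (piRep ρ Γ) A) ^ p ^ (j + 1))} := by
    have e : entHom (piRep ρ Γ) A ⟨_, hc g⟩ = (Algebra.ofId K A).mapMatrix (ρ g) := rfl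
    rw [map_pow, map_pow, e, ← map_pow (Algebra.ofId K A).mapMatrix _ (p ^ j), hφ,
      ← Polynomial.aeval_algHom_apply, map_pow]
    exact Polynomial.aeval_mem_adjoin_singleton _ _
  have key : ∀ c : Γ, ∃ r : A, r.1 c = 1 ∧ ∀ x, r.1 x ≠ 0 →
      ρ (x * g ^ p ^ j * x⁻¹) = ρ (c * g ^ p ^ j * c⁻¹) := fun c => by
    let ev : Γ → A →+* K := fun x => (Pi.evalRingHom (fun _ : Γ => K) x).comp A.val.toRingHom
    have hev : ∀ (x : Γ) (δ : ent (piRep ρ Γ) A),
        (ev x).mapMatrix (entHom (piRep ρ Γ) A δ) = ρ (δ.1 x) := fun _ _ => rfl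
    obtain ⟨r, h1, h2⟩ := loc_step (k := K) hp
      (by rw [← map_natCast (algebraMap K A), CharP.cast_eq_zero, map_zero]) (RingHom.ker (ev c))
      (entHom (piRep ρ Γ) A) (y := (⟨_, hc c⟩ : ent (piRep ρ Γ) A)⁻¹ * ⟨_, hid⟩)
      (eng_sub (eng_pi h Γ) _ (hc g)) hn hs fun a b => by
        have e : ∀ X : Matrix ι ι A, (ev c).mapMatrix X = 0 → X a b ∈ RingHom.ker (ev c) :=
          fun X hX => congrFun (congrFun hX a) b
        refine e _ ?_
        rw [map_sub, hev, hev]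
        simp
    refine ⟨r, ?_, fun x hx => ?_⟩
    · rw [RingHom.mem_ker, map_sub, map_one, sub_eq_zero] at h1
      exact h1
    · have h3 := congrArg (ev x).mapMatrix h2
      rw [map_zero, RingHom.mapMatrix_apply, Matrix.map_smul' _ _ _ (map_mul _),
        ← RingHom.mapMatrix_apply, map_sub, hev, hev, smul_eq_zero, sub_eq_zero] at h3
      have h4 : ρ (c⁻¹ * x * g ^ p ^ j * (c⁻¹ * x)⁻¹) = ρ (g ^ p ^ j) := h3.resolve_left hx
      rw [map_mul ρ _ c⁻¹, map_mul ρ c, ← h4, ← map_mul, ← map_mul]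
      congr 1
      group
  choose r hr1 hr2 using key
  obtain ⟨T, hT1, hT2⟩ := (Submodule.fg_span_iff_fg_span_finset_subset (Set.range r)).1
    (IsNoetherian.noetherian (R := A) _)
  have hT3 : ∀ t ∈ T, ∃ c, r c = t := fun t ht => hT1 ht
  choose! c hc using hT3
  refine ⟨j, (T.finite_toSet.image fun t => ρ (c t * g ^ p ^ j * (c t)⁻¹)).subset ?_⟩
  rintro _ ⟨y, rfl⟩
  by_contra h0
  have h1 : Submodule.span A (T : Set A) ≤
      RingHom.ker ((Pi.evalRingHom (fun _ : Γ => K) y⁻¹).comp A.val.toRingHom) := by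
    refine Submodule.span_le.2 fun t ht => ?_
    by_contra h2
    refine h0 ⟨t, ht, ?_⟩
    have h3 := hr2 (c t) y⁻¹ (by rw [hc t ht]; exact h2)
    rw [inv_inv] at h3
    exact h3.symm
  have h2 : (r y⁻¹).1 y⁻¹ = 0 := h1 (hT2 ▸ Submodule.subset_span ⟨y⁻¹, rfl⟩)
  exact one_ne_zero ((hr1 _).symm.trans h2)

end Pool.Agent.Lib.MP_b39e30_al.Rc
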