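import Pool.Agent.Lib.MP_b39e30_al.Rc.Sq

/-!
The local step: Krull's intersection theorem.
-/

set_option autoImplicit false

namespace Pool.Agent.Lib.MP_b39e30_al.Rc

open Pool.Agent.Lib.MP_b39e30_al.Lin

theorem loc_sandwich {ι : Type} [Fintype ι] {A : Type*} [CommRing A] (I : Ideal A)
    (D c : Matrix ι ι A) (hD : ∀ a b, D a b ∈ I) (a b : ι) : (D * c * D) a b ∈ I * I := by
  rw [Matrix.mul_apply]
  refine Ideal.sum_mem _ fun l _ => Ideal.mul_mem_mul ?_ (hD l b)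
  rw [Matrix.mul_apply]
  exact Ideal.sum_mem _ fun s _ => Ideal.mul_mem_right _ _ (hD a s)

theorem loc_lift {ι : Type} [Fintype ι] [DecidableEq ι] {k A : Type*} [CommRing k] [CommRing A]
    [Algebra k A] {p : ℕ} (hp : p.Prime) (h0 : (p : A) = 0) (I J : Ideal A) (hIJ : I * I ≤ J)
    {Δ : Type*} [Group Δ] (τ : Δ →* Matrix ι ι A) {n j : ℕ} {g y : Δ} (h : Eng n g)
    (hn : n ≤ p ^ j) (hs : τ (g ^ p ^ j) ∈ Algebra.adjoin k {τ (g ^ p ^ (j + 1))})
    (hD : ∀ a b, (τ (y * g ^ p ^ j * y⁻¹) - τ (g ^ p ^ j)) a b ∈ I) (a b : ι) :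
    (τ (y * g ^ p ^ j * y⁻¹) - τ (g ^ p ^ j)) a b ∈ J := by
  let π : Matrix ι ι A →ₐ[k] Matrix ι ι (A ⧸ J) := (Ideal.Quotient.mkₐ k J).mapMatrix
  have hπ : ∀ (M : Matrix ι ι A) (s t : ι), π M s t = Ideal.Quotient.mk J (M s t) :=
    fun M s t => rfl
  let τ' : Δ →* Matrix ι ι (A ⧸ J) := (π : Matrix ι ι A →* Matrix ι ι (A ⧸ J)).comp τ
  have hτ : ∀ x, τ' x = π (τ x) := fun x => rfl
  have hA : (p : Matrix ι ι A) = 0 := by
    rw [← map_natCast (algebraMap A (Matrix ι ι A)) p, h0, map_zero]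
  have h0' : (p : Matrix ι ι (A ⧸ J)) = 0 := by
    rw [← map_natCast π p, hA, map_zero]
  have hs' : τ' (g ^ p ^ j) ∈ Algebra.adjoin k {τ' (g ^ p ^ (j + 1))} := by
    rw [hτ, hτ, ← AlgHom.map_adjoin_singleton]
    exact Subalgebra.mem_map.2 ⟨_, hs, rfl⟩
  have key := sq_step (k := k) hp h0' τ' (y := y) h hn hs' (by
    intro c
    have hc : ∃ c' : Matrix ι ι A, π c' = c := by
      choose f hf using fun s t => Ideal.Quotient.mk_surjective (I := J) (c s t)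
      exact ⟨Matrix.of f, Matrix.ext fun s t => hf s t⟩
    obtain ⟨c', rfl⟩ := hc
    rw [hτ, hτ, ← map_sub, ← map_mul, ← map_mul]
    ext s t
    rw [hπ, Matrix.zero_apply, Ideal.Quotient.eq_zero_iff_mem]
    exact hIJ (loc_sandwich I _ c' hD s t))
  rw [hτ, hτ, ← sub_eq_zero, ← map_sub] at key
  have := congrFun (congrFun key a) b
  rwa [hπ, Matrix.zero_apply, Ideal.Quotient.eq_zero_iff_mem] at this

theorem loc_prod {A σ : Type*} [CommRing A] (m : Ideal A) (s : Finset σ) (r : σ → A)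
    (hr : ∀ x, r x ∈ m) : (∏ x ∈ s, (1 - r x)) - 1 ∈ m := by
  rw [← Ideal.Quotient.eq, map_prod, map_one]
  refine Finset.prod_eq_one fun x _ => ?_
  rw [map_sub, map_one, Ideal.Quotient.eq_zero_iff_mem.2 (hr x), sub_zero]

theorem loc_step {ι : Type} [Fintype ι] [DecidableEq ι] {k A : Type*} [CommRing k] [CommRing A]
    [Algebra k A] [IsNoetherianRing A] {p : ℕ} (hp : p.Prime) (h0 : (p : A) = 0) (m : Ideal A)
    {Δ : Type*} [Group Δ] (τ : Δ →* Matrix ι ι A) {n j : ℕ} {g y : Δ} (h : Eng n g)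
    (hn : n ≤ p ^ j) (hs : τ (g ^ p ^ j) ∈ Algebra.adjoin k {τ (g ^ p ^ (j + 1))})
    (hD : ∀ a b, (τ (y * g ^ p ^ j * y⁻¹) - τ (g ^ p ^ j)) a b ∈ m) :
    ∃ r : A, r - 1 ∈ m ∧ r • (τ (y * g ^ p ^ j * y⁻¹) - τ (g ^ p ^ j)) = 0 := by
  have hall : ∀ (i : ℕ) (a b : ι),
      (τ (y * g ^ p ^ j * y⁻¹) - τ (g ^ p ^ j)) a b ∈ m ^ (i + 1) := by
    intro i
    induction i with
    | zero => simpa using hD
    | succ i ih =>
      refine loc_lift (k := k) hp h0 (m ^ (i + 1)) (m ^ (i + 1 + 1)) ?_ τ h hn hs ih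
      rw [← pow_add]
      exact Ideal.pow_le_pow_right (by omega)
  generalize τ (y * g ^ p ^ j * y⁻¹) - τ (g ^ p ^ j) = D at hall ⊢
  have hk : ∀ x : ι × ι, ∃ r : m, (r : A) • D x.1 x.2 = D x.1 x.2 := by
    intro x
    refine (Ideal.mem_iInf_smul_pow_eq_bot_iff m (D x.1 x.2)).1 ?_
    refine (Submodule.mem_iInf _).2 fun i => ?_
    rw [smul_eq_mul, Ideal.mul_top]
    exact Ideal.pow_le_pow_right (Nat.le_succ i) (hall i x.1 x.2)
  choose r hr using hk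
  refine ⟨∏ x : ι × ι, (1 - (r x : A)), loc_prod m _ _ fun x => (r x).2, ?_⟩
  ext a b
  have h1 : (1 - (r (a, b) : A)) * D a b = 0 := by
    have := hr (a, b)
    rw [smul_eq_mul] at this
    rw [sub_mul, one_mul, this, sub_self]
  rw [Matrix.smul_apply, smul_eq_mul, Matrix.zero_apply,
    ← Finset.prod_erase_mul _ _ (Finset.mem_univ (a, b)), mul_assoc, h1, mul_zero]

end Pool.Agent.Lib.MP_b39e30_al.Rc
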