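import Pool.Agent.Lib.MP_b39e30_al.Rc.MRad

/-!
A bound for the nilpotency index of the coefficients, by a product ring.
-/

set_option autoImplicit false

namespace Pool.Agent.Lib.MP_b39e30_al.Rc

open Pool.Agent.Lib.MP_b39e30_al.Lin

variable {R M : Type} [CommRing R] [AddCommGroup M] [Module R M] {d : ℕ}

theorem fib_bound (b : Fin d → M) {F : Type} (φ : F → Module.End R M)
    (Φ : Module.End ((R × M) × F → R) ((R × M) × F → M)) (hΦ : ∀ v c, Φ v c = φ c.2 (v c))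
    (hZ : ∀ p : Ideal ((R × M) × F → R), p.IsPrime → Zp p Φ) (J : Finset (Fin d)) :
    ∃ m : ℕ, ∀ δ ∈ DJ R b J, ∀ (v : M) (f : F), ∃ ψ : Fin d → R,
      ∑ j ∈ J, ψ j • b j = δ • φ f v ∧ ∀ j ∈ J, (δ * ψ j) ^ m ∈ DJ R b (J.erase j) := by
  classical
  obtain ⟨D, hD1, hD2⟩ : ∃ D : (R × M) × F → R, (∀ c, D c ∈ DJ R b J) ∧
      ∀ c, c.1.1 ∈ DJ R b J → D c = c.1.1 :=
    ⟨fun c => if c.1.1 ∈ DJ R b J then c.1.1 else 0, fun c => by
      beta_reduce
      split_ifs with h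
      exacts [h, zero_mem _], fun c h => if_pos h⟩
  have hD : D ∈ DJ ((R × M) × F → R) (fun j (_ : (R × M) × F) => b j) J := fun V => by
    choose k hk using fun c => hD1 c (V c)
    refine ⟨fun j c => k c j, funext fun c => ?_⟩
    rw [Finset.sum_apply]
    exact hk c
  obtain ⟨Ψ, hΨ⟩ := hD (Φ fun c => c.1.2)
  have h1 : ∀ j, ∃ n : ℕ, j ∈ J → (D * Ψ j) ^ n ∈
      DJ ((R × M) × F → R) (fun j (_ : (R × M) × F) => b j) (J.erase j) := fun j => by
    by_cases hj : j ∈ J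
    · have h2 : D * Ψ j ∈ (DJ ((R × M) × F → R) (fun j (_ : (R × M) × F) => b j)
          (J.erase j)).radical := by
        rw [Ideal.radical_eq_sInf, Submodule.mem_sInf]
        rintro q ⟨hle, hq⟩
        exact fib_rad hq hD (hZ q hq) hΨ hj hle
      obtain ⟨n, hn⟩ := h2
      exact ⟨n, fun _ => hn⟩
    · exact ⟨0, fun h => absurd h hj⟩
  choose n hn using h1
  refine ⟨J.sup n, fun δ hδ v f => ⟨fun j => Ψ j ((δ, v), f), ?_, fun j hj u => ?_⟩⟩
  · have h2 := congrFun hΨ ((δ, v), f)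
    rw [Finset.sum_apply, Pi.smul_apply', hΦ, hD2 _ hδ] at h2
    exact h2
  · obtain ⟨k, hk⟩ := Ideal.pow_mem_of_pow_mem _ (hn j hj) (Finset.le_sup (f := n) hj) fun _ => u
    have h2 := congrFun hk ((δ, v), f)
    rw [Finset.sum_apply, Pi.smul_apply', Pi.pow_apply, Pi.mul_apply, hD2 _ hδ] at h2
    exact ⟨fun i => k i ((δ, v), f), h2⟩

end Pool.Agent.Lib.MP_b39e30_al.Rc
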