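import Pool.Agent.Lib.MP_b39e30_al.Rc.MStep

/-!
A family of endomorphisms with bounded coefficients is nilpotent.
-/

set_option autoImplicit false

namespace Pool.Agent.Lib.MP_b39e30_al.Rc

variable {R M : Type} [CommRing R] [AddCommGroup M] [Module R M] {d : ℕ}

theorem mcrit_split {F : Type} (φ : F → Module.End R M) {I : Ideal R} {W : Submodule R M}
    {a c : ℕ} (h1 : ∀ l : List F, l.length = a → ∀ x ∈ I, ∀ v : M, x • (l.map φ).prod v ∈ W)
    (h2 : ∀ l : List F, l.length = c → ∀ v : M, (l.map φ).prod v ∈ I • (⊤ : Submodule R M))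
    (l : List F) (hl : l.length = a + c) (v : M) : (l.map φ).prod v ∈ W := by
  have h3 := h2 (l.drop a) (by rw [List.length_drop]; omega) v
  rw [← List.take_append_drop a l, List.map_append, List.prod_append, Module.End.mul_apply]
  refine Submodule.smul_induction_on
    (p := fun w => ((l.take a).map φ).prod w ∈ W) h3 (fun x hx n _ => ?_) fun x y hx hy => ?_
  · rw [map_smul]
    exact h1 _ (by rw [List.length_take]; omega) x hx n
  · rw [map_add]
    exact W.add_mem hx hy

theorem mcrit_pow {F : Type} (φ : F → Module.End R M) {I : Ideal R} {K : ℕ}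
    (h : ∀ l : List F, l.length = K → ∀ v : M, (l.map φ).prod v ∈ I • (⊤ : Submodule R M))
    (i : ℕ) : ∀ l : List F, l.length = i * K → ∀ v : M,
      (l.map φ).prod v ∈ I ^ i • (⊤ : Submodule R M) := by
  induction i with
  | zero =>
    intro l _ v
    rw [pow_zero, one_smul]
    exact Submodule.mem_top
  | succ i ih =>
    intro l hl v
    refine mcrit_split φ (a := i * K) (fun l hl x hx v => ?_) h l (by rw [hl, Nat.succ_mul]) v
    rw [pow_succ', mul_smul]
    exact Submodule.smul_mem_smul hx (ih l hl v)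

theorem mod_crit (hR : Crit R) {b : Fin d → M} (hb : Submodule.span R (Set.range b) = ⊤)
    {F : Type} (φ : F → Module.End R M) {N : ℕ} (h0 : N ≠ 0) (hN : ∀ f, N • φ f = 0)
    (hB : ∀ J : Finset (Fin d), ∃ m : ℕ, ∀ δ ∈ DJ R b J, ∀ (v : M) (f : F), ∃ ψ : Fin d → R,
      ∑ j ∈ J, ψ j • b j = δ • φ f v ∧ ∀ j ∈ J, (δ * ψ j) ^ m ∈ DJ R b (J.erase j)) :
    ∃ K : ℕ, ∀ l : List F, l.length = K → (l.map φ).prod = 0 := by
  have key : ∀ k r : ℕ, r + k = d + 1 → ∃ K : ℕ, ∀ l : List F, l.length = K → ∀ v : M,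
      (l.map φ).prod v ∈ EJ R b N r • (⊤ : Submodule R M) := by
    intro k
    induction k with
    | zero =>
      intro r hr
      refine ⟨0, fun l _ v => ?_⟩
      have h1 : (1 : R) ∈ EJ R b N r := by
        refine Ideal.subset_span (Or.inr ⟨Finset.univ, ?_, fun w => ?_⟩)
        · rw [Finset.card_univ, Fintype.card_fin]
          omega
        · rw [one_smul]
          exact (Submodule.mem_span_range_iff_exists_fun R).1 (hb ▸ Submodule.mem_top)
      have h2 := Submodule.smul_mem_smul h1 (Submodule.mem_top (x := (l.map φ).prod v))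
      rwa [one_smul] at h2
    | succ k ih =>
      intro r hr
      obtain ⟨K, hK⟩ := ih (r + 1) (by omega)
      obtain ⟨t, s, hts⟩ := mod_step hR b φ h0 hB r
      exact ⟨t + s * K, mcrit_split φ hts (mcrit_pow φ hK s)⟩
  obtain ⟨K, hK⟩ := key (d + 1) 0 (Nat.zero_add _)
  refine ⟨1 + K, fun l hl => LinearMap.ext fun v => ?_⟩
  refine (Submodule.mem_bot R).1 (mcrit_split φ (fun l hl x hx v => ?_) hK l hl v)
  obtain ⟨f, rfl⟩ := List.length_eq_one_iff.1 hl
  have h1 : EJ R b N 0 ≤ Ideal.span {(N : R)} := by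
    refine Ideal.span_mono ?_
    rintro y (hy | ⟨J, hJ, _⟩)
    · exact hy
    · exact absurd hJ (Nat.not_lt_zero _)
  obtain ⟨c, rfl⟩ := Ideal.mem_span_singleton'.1 (h1 hx)
  have h2 : (N : R) • φ f v = 0 := by
    rw [Nat.cast_smul_eq_nsmul]
    exact LinearMap.congr_fun (hN f) v
  rw [List.map_singleton, List.prod_singleton, mul_smul, h2, smul_zero]
  exact Submodule.zero_mem _

end Pool.Agent.Lib.MP_b39e30_al.Rc
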