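import Pool.Agent.Lib.MP_b39e30_al.Lin.MDefs
import Pool.Agent.Lib.MP_b39e30_al.Rc.Frob

/-!
Definitions for the case of a finitely generated module.
-/

set_option autoImplicit false

namespace Pool.Agent.Lib.MP_b39e30_al.Rc

/-- The scalars that move the module into the span of the generators indexed by `J`. -/
def DJ (R : Type) {M : Type} [CommRing R] [AddCommGroup M] [Module R M] {d : ℕ} (b : Fin d → M)
    (J : Finset (Fin d)) : Ideal R where
  carrier := {δ | ∀ v : M, ∃ c : Fin d → R, ∑ j ∈ J, c j • b j = δ • v}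
  zero_mem' := fun _ => ⟨0, by simp⟩
  add_mem' := fun {x y} hx hy v => by
    obtain ⟨c, hc⟩ := hx v
    obtain ⟨c', hc'⟩ := hy v
    exact ⟨c + c', by simp [add_smul, Finset.sum_add_distrib, hc, hc']⟩
  smul_mem' := fun r x hx v => by
    obtain ⟨c, hc⟩ := hx v
    exact ⟨r • c, by simp [mul_smul, ← Finset.smul_sum, hc]⟩

/-- Ideals that are nil of bounded index modulo an ideal are nilpotent modulo that ideal. -/
def Crit (R : Type) [CommRing R] : Prop :=
  ∀ a I : Ideal R, (∃ m : ℕ, ∀ x ∈ I, x ^ m ∈ a) → ∃ t : ℕ, I ^ t ≤ a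

theorem crit_span {R : Type} [CommRing R] (hR : Crit R) {N : ℕ} (h0 : N ≠ 0) (a : Ideal R)
    (ha : (N : R) ∈ a) (S : Set R) (m : ℕ) (h : ∀ x ∈ S, x ^ m ∈ a) :
    ∃ t : ℕ, Ideal.span S ^ t ≤ a := by
  obtain ⟨T, hT⟩ := frob m N h0
  refine hR a _ ⟨T, fun x hx => ?_⟩
  rw [← Ideal.Quotient.eq_zero_iff_mem, map_pow]
  refine hT (R ⧸ a) (Ideal.Quotient.mk a '' S) ?_ _ ?_
  · rintro _ ⟨y, hy, rfl⟩
    rw [← map_pow, ← map_nsmul, nsmul_eq_mul]
    exact ⟨Ideal.Quotient.eq_zero_iff_mem.2 (h y hy),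
      Ideal.Quotient.eq_zero_iff_mem.2 (a.mul_mem_right _ ha)⟩
  · rw [← Ideal.map_span]
    exact Ideal.mem_map_of_mem _ hx

end Pool.Agent.Lib.MP_b39e30_al.Rc
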