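import Pool.Agent.Lib.MP_b39e30_al.Rc.MDef

/-!
The coefficients of an endomorphism that vanishes on all fibres.
-/

set_option autoImplicit false

namespace Pool.Agent.Lib.MP_b39e30_al.Rc

open Pool.Agent.Lib.MP_b39e30_al.Lin

variable {R M : Type} [CommRing R] [AddCommGroup M] [Module R M] {d : ℕ} {b : Fin d → M}

theorem fib_rad {q : Ideal R} (hq : q.IsPrime) {J : Finset (Fin d)} {δ : R} (hδ : δ ∈ DJ R b J)
    {φ : Module.End R M} (hφ : Zp q φ) {v : M} {ψ : Fin d → R}
    (hψ : ∑ j ∈ J, ψ j • b j = δ • φ v) {j : Fin d} (hj : j ∈ J)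
    (hle : DJ R b (J.erase j) ≤ q) : δ * ψ j ∈ q := by
  obtain ⟨s, hs, hv⟩ := hφ
  have key : ∀ w ∈ q • (⊤ : Submodule R M), ∃ c : Fin d → R, (∀ i, c i ∈ q) ∧
      ∑ i ∈ J, c i • b i = δ • w := fun w hw => by
    refine Submodule.smul_induction_on hw (fun r hr n _ => ?_) fun x y hx hy => ?_
    · obtain ⟨c, hc⟩ := hδ n
      refine ⟨fun i => r * c i, fun i => q.mul_mem_right _ hr, ?_⟩
      simp only [mul_smul]
      rw [← Finset.smul_sum, hc, smul_comm]
    · obtain ⟨c, h1, h2⟩ := hx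
      obtain ⟨c', h3, h4⟩ := hy
      refine ⟨fun i => c i + c' i, fun i => q.add_mem (h1 i) (h3 i), ?_⟩
      simp only [add_smul]
      rw [Finset.sum_add_distrib, h2, h4, smul_add]
  obtain ⟨c, h1, h2⟩ := key _ (hv v)
  have h3 : ∑ i ∈ J, (s * ψ i - c i) • b i = 0 := by
    simp only [sub_smul, mul_smul]
    rw [Finset.sum_sub_distrib, ← Finset.smul_sum, hψ, h2, smul_comm, sub_self]
  have h4 : δ * (s * ψ j - c j) ∈ DJ R b (J.erase j) := fun u => by
    obtain ⟨c', hc⟩ := hδ u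
    refine ⟨fun i => (s * ψ j - c j) * c' i - c' j * (s * ψ i - c i), ?_⟩
    rw [Finset.sum_erase J (by
      beta_reduce
      rw [mul_comm (c' j), sub_self, zero_smul])]
    have h5 : ∀ i, ((s * ψ j - c j) * c' i - c' j * (s * ψ i - c i)) • b i =
        (s * ψ j - c j) • c' i • b i - c' j • (s * ψ i - c i) • b i := fun i => by
      rw [sub_smul, mul_smul, mul_smul]
    simp only [h5]
    rw [Finset.sum_sub_distrib, ← Finset.smul_sum, ← Finset.smul_sum, hc, h3, smul_zero, sub_zero,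
      mul_comm δ, mul_smul]
  have h6 : s * (δ * ψ j) ∈ q := by
    have h7 := q.add_mem (hle h4) (q.mul_mem_left δ (h1 j))
    have h8 : δ * (s * ψ j - c j) + δ * c j = s * (δ * ψ j) := by ring
    rwa [h8] at h7
  exact (hq.mem_or_mem h6).resolve_left hs

end Pool.Agent.Lib.MP_b39e30_al.Rc
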