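import Pool.Agent.Lib.MP_b39e30_al.Rc.Ring
import Pool.Agent.Lib.MP_b39e30_al.Rc.MBound
import Pool.Agent.Lib.MP_b39e30_al.Rc.MCrit

/-!
Bounded left Engel elements of groups of automorphisms of finitely generated modules.
-/

set_option autoImplicit false

namespace Pool.Agent.Lib.MP_b39e30_al.Rc

open Pool.Agent.Lib.MP_b39e30_al.Lin Pool.Agent.Lib.MP_b39e30_al.Lc

theorem field_thmE' {K V : Type} [Field K] [AddCommGroup V] [Module K V] [FiniteDimensional K V]
    [IsAlgClosed K] {Γ : Type*} [Group Γ] (ρ : Γ →* Module.End K V) {n : ℕ}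
    {g : Γ} (h : Eng n g) {d : ℕ} (hd : Module.finrank K V ≤ d) : ∃ e, PP ρ g e d := by
  obtain ⟨e, he⟩ := field_thm' ((mfE K V).toAlgHom.toRingHom.toMonoidHom.comp ρ) h
  rw [Fintype.card_fin] at he
  refine ⟨e, mf_pad (fun u f => (mfE K V).injective ?_) hd⟩
  rw [map_zero, ← he u f, map_list_prod, List.map_ofFn]
  refine congrArg (fun F => (List.ofFn F).prod) (funext fun i => ?_)
  rw [Function.comp_apply, map_mul, map_sub, map_one]
  rfl

variable {R M : Type} [CommRing R] [AddCommGroup M] [Module R M] {Γ : Type} [Group Γ] {d : ℕ}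
  {b : Fin d → M}

theorem mu_prime' [Module.Finite R M] (p : Ideal R) [p.IsPrime]
    (hb : Submodule.span R (Set.range b) = ⊤) (ρ : Γ →* Module.End R M) {n : ℕ}
    {g : Γ} (h : Eng n g) :
    ∃ e, ∀ (u : Fin d → Γ) (f : Fin d → ℕ → Γ), Zp p (ulPr ρ g e u f) := by
  obtain ⟨K, _, _, _, rfl⟩ := mu_field p
  have hd := finrank_le_of_span_eq_top (span_baseChange K hb)
  rw [Fintype.card_fin] at hd
  exact (field_thmE' (muRep K ρ) h hd).imp fun e he => (mu_iff K ρ g e d).1 he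

theorem mu_unif' [Module.Finite R M]
    (hb : Submodule.span R (Set.range b) = ⊤) (ρ : Γ →* Module.End R M) {n : ℕ} {g : Γ}
    (h : Eng n g) : ∃ e, ∀ p : Ideal R, p.IsPrime →
      ∀ (u : Fin d → Γ) (f : Fin d → ℕ → Γ), Zp p (ulPr ρ g e u f) := by
  by_contra hne
  have hne' : ∀ e, ∃ p : Ideal R, p.IsPrime ∧
      ¬ ∀ (u : Fin d → Γ) (f : Fin d → ℕ → Γ), Zp p (ulPr ρ g e u f) := fun e => by
    by_contra h1
    exact hne ⟨e, fun p hp => by_contra fun h2 => h1 ⟨p, hp, h2⟩⟩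
  choose p hp hP using hne'
  have hq := ulId_prime hp
  have hF : Module.Finite (ℕ → R) (ℕ → M) :=
    ⟨mu_span hb ▸ Submodule.fg_span (Set.finite_range _)⟩
  obtain ⟨e, he⟩ := mu_prime' (ulId p) (mu_span hb)
    ((muEnd R M).toMonoidHom.comp (ρ.compLeft ℕ)) (eng_pi h ℕ)
  have h2 : ∀ c, ∃ (u : Fin d → Γ) (f : Fin d → ℕ → Γ),
      e ≤ c → ¬ Zp (p c) (ulPr ρ g e u f) := fun c => by
    by_contra h3
    push Not at h3
    have := hp c
    exact hP c (mu_mono (p c) (fun u f => (h3 u f).2) (h3 1 1).1)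
  choose u f h2 using h2
  have h3 := he (fun i c => u c i) fun i j c => f c i j
  have h6 := ul_map (muEnd R M) (MonoidHom.id (ℕ → Γ)) (ρ := ρ.compLeft ℕ)
    (σ := (muEnd R M).toMonoidHom.comp (ρ.compLeft ℕ)) (fun _ => rfl) (fun _ => g) e
    (fun i c => u c i) fun i j c => f c i j
  simp only [MonoidHom.id_apply] at h6
  rw [← h6] at h3
  obtain ⟨c, h4, h5⟩ :=
    ((mu_down hb h3).and (Nat.hyperfilter_le_atTop (Filter.eventually_ge_atTop e))).exists
  have h7 := ul_map (Pi.evalRingHom (fun _ : ℕ => Module.End R M) c)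
    (Pi.evalMonoidHom (fun _ : ℕ => Γ) c) (ρ := ρ.compLeft ℕ) (σ := ρ) (fun _ => rfl)
    (fun _ => g) e (fun i c => u c i) fun i j c => f c i j
  exact h2 c h5 (h7 ▸ h4)

theorem mod_fib (hb : Submodule.span R (Set.range b) = ⊤) (ρ : Γ →* Module.End R M) {n : ℕ}
    {g : Γ} (h : Eng n g) : ∃ e, ∀ e', e ≤ e' → ∀ J : Finset (Fin d), ∃ m : ℕ, ∀ δ ∈ DJ R b J,
      ∀ (v : M) (f : Fin d → ℕ → Γ), ∃ ψ : Fin d → R,
        ∑ j ∈ J, ψ j • b j = δ • ulPr ρ g e' (fun _ => 1) f v ∧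
          ∀ j ∈ J, (δ * ψ j) ^ m ∈ DJ R b (J.erase j) := by
  let C := (R × M) × (Fin d → ℕ → Γ)
  have hF : Module.Finite (C → R) (C → M) :=
    ⟨pi_span C hb ▸ Submodule.fg_span (Set.finite_range _)⟩
  obtain ⟨e, he⟩ := mu_unif' (pi_span C hb) ((piEnd C R M).toMonoidHom.comp (ρ.compLeft C))
    (eng_pi h C)
  refine ⟨e, fun e' h1 => fib_bound b (fun f => ulPr ρ g e' (fun _ => 1) f) _ (fun v c => ?_)
    fun p hp => mu_mono p (he p hp) h1 (fun _ => 1) fun i j c => c.2 i j⟩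
  have h6 := ul_map (piEnd C R M) (MonoidHom.id (C → Γ)) (ρ := ρ.compLeft C)
    (σ := (piEnd C R M).toMonoidHom.comp (ρ.compLeft C)) (fun _ => rfl) (fun _ => g) e'
    (fun _ => 1) fun i j c => c.2 i j
  have h7 := ul_map (Pi.evalRingHom (fun _ : C => Module.End R M) c)
    (Pi.evalMonoidHom (fun _ : C => Γ) c) (ρ := ρ.compLeft C) (σ := ρ) (fun _ => rfl)
    (fun _ => g) e' (fun _ => 1) fun i j c => c.2 i j
  exact (congrFun (LinearMap.congr_fun h6 v) c).symm.trans (LinearMap.congr_fun h7 (v c))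

/-- The elements killed by a power of `N`. -/
def torsM (R M : Type) [CommRing R] [AddCommGroup M] [Module R M] (N : ℕ) : Submodule R M where
  carrier := {x | ∃ k : ℕ, N ^ k • x = 0}
  zero_mem' := ⟨0, smul_zero _⟩
  add_mem' := fun {x y} ⟨i, hi⟩ ⟨j, hj⟩ => ⟨i + j, by
    rw [smul_add, pow_add, mul_smul, mul_smul, hj, smul_comm, hi, smul_zero, smul_zero, add_zero]⟩
  smul_mem' := fun r x ⟨i, hi⟩ => ⟨i, by rw [smul_comm, hi, smul_zero]⟩

/-- The action of the endomorphisms on the quotient by the torsion. -/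
def torsEnd (R M : Type) [CommRing R] [AddCommGroup M] [Module R M] (N : ℕ) :
    Module.End R M →* Module.End R (M ⧸ torsM R M N) where
  toFun a := (torsM R M N).mapQ (torsM R M N) a fun x ⟨k, hk⟩ =>
    ⟨k, by rw [← map_nsmul, hk, map_zero]⟩
  map_one' := Submodule.linearMap_qext _ rfl
  map_mul' _ _ := Submodule.linearMap_qext _ rfl

theorem mod_tors (hb : Submodule.span R (Set.range b) = ⊤) (ρ : Γ →* Module.End R M) {n : ℕ}
    {g : Γ} (h : Eng n g) :
    ∃ e, ∀ e', e ≤ e' → ∃ N : ℕ, N ≠ 0 ∧ ∀ f : ℕ → Γ, N • (ρ (zw g f e') - 1) = 0 := by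
  obtain ⟨N, hN⟩ := unifM d n
  refine ⟨N, fun e' h1 => ?_⟩
  let C := ℕ → Γ
  let T := torsM (C → R) (C → M) N.factorial
  let τ := (piEnd C R M).toMonoidHom.comp (ρ.compLeft C)
  have h2 := hN (C → R) ((C → M) ⧸ T) (T.mkQ ∘ fun j _ => b j)
    (by rw [Set.range_comp, ← Submodule.map_span, pi_span C hb, Submodule.map_top,
      Submodule.range_mkQ]) (fun v hv => by
      obtain ⟨x, rfl⟩ := T.mkQ_surjective v
      rw [← map_nsmul] at hv
      obtain ⟨k, hk⟩ := (Submodule.Quotient.mk_eq_zero T).1 hv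
      exact (Submodule.Quotient.mk_eq_zero T).2 ⟨k + 1, by rw [pow_succ, mul_smul, hk]⟩) _
    ((torsEnd (C → R) (C → M) N.factorial).comp τ) _ (eng_pi h C) fun j f => f j
  have h4 := zw_mono' _ h2 h1
  have h5 : ∀ i, τ (zw (fun _ => g) (fun j f => f j) e') (fun _ => b i) - (fun _ => b i) ∈ T :=
    fun i => (Submodule.Quotient.eq T).1
      (LinearMap.congr_fun h4 (Submodule.Quotient.mk fun _ => b i))
  choose k hk using h5
  refine ⟨N.factorial ^ ∑ t, k t, pow_ne_zero _ N.factorial_ne_zero, fun f =>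
    LinearMap.ext_on_range hb fun i => ?_⟩
  obtain ⟨j, hj⟩ := Nat.exists_eq_add_of_le' (Finset.single_le_sum (f := k)
    (fun _ _ => Nat.zero_le _) (Finset.mem_univ i))
  have h7 := map_zw (Pi.evalMonoidHom (fun _ : C => Γ) f) (fun _ => g) (fun j f => f j) e'
  have h8 : N.factorial ^ k i • (ρ (zw (fun _ : C => g) (fun j f => f j) e' f) (b i) - b i) = 0 :=
    congrFun (hk i) f
  rw [show zw (fun _ : C => g) (fun j f => f j) e' f = zw g f e' from h7] at h8
  rw [LinearMap.smul_apply, hj, pow_add, mul_smul, LinearMap.zero_apply]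
  exact (congrArg _ h8).trans (smul_zero _)

theorem blocks {A : Type*} [Ring A] (ρ : Γ →* A) (g : Γ) (e k : ℕ) : ∀ (i : ℕ) (l : List A),
    (∀ x ∈ l, ∃ f, x = ρ (zw g f e) - 1) → l.length = i * k →
      ∃ l' : List (Fin k → ℕ → Γ), l'.length = i ∧
        l.prod = (l'.map fun f => ulPr ρ g e (fun _ => 1) f).prod := fun i => by
  induction i with
  | zero =>
    intro l _ hn
    rw [zero_mul, List.length_eq_zero_iff] at hn
    exact ⟨[], rfl, by rw [hn]; rfl⟩
  | succ i ih =>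
    intro l hl hn
    rw [add_mul, one_mul] at hn
    obtain ⟨f, hf⟩ := blk ρ g _ (l.take k) (fun x hx => hl x (List.mem_of_mem_take hx))
      (List.length_take_of_le (by omega))
    obtain ⟨l', h1, h2⟩ := ih (l.drop k) (fun x hx => hl x (List.mem_of_mem_drop hx))
      (by rw [List.length_drop]; omega)
    refine ⟨f :: l', by rw [List.length_cons, h1], ?_⟩
    rw [List.map_cons, List.prod_cons, ← hf, ← h2, ← List.prod_append, List.take_append_drop]

theorem mod_thm (hR : Crit R) [Module.Finite R M] (ρ : Γ →* Module.End R M)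
    (hρ : Function.Injective ρ) {n : ℕ} {g : Γ} (h : Eng n g) :
    (Subgroup.zpowers g).IsSubnormal := by
  obtain ⟨d, b, hb⟩ := Module.Finite.exists_fin (R := R) (M := M)
  rcases d with _ | d
  · exact QQ.subnormal (e := 0) (m := 0) hρ
      (fun _ => LinearMap.ext_on_range hb fun i => i.elim0) h
  obtain ⟨e1, h1⟩ := mod_fib hb ρ h
  obtain ⟨e2, h2⟩ := mod_tors hb ρ h
  obtain ⟨N, hN0, hN⟩ := h2 _ (le_max_right e1 e2)
  obtain ⟨K, hK⟩ := mod_crit hR hb _ hN0 (fun f => by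
    rw [ulPr, List.ofFn_succ, List.prod_cons, ← smul_mul_assoc, ← mul_smul_comm, hN, mul_zero,
      zero_mul]) (h1 _ (le_max_left e1 e2))
  refine QQ.subnormal (e := max e1 e2) (m := K * (d + 1)) hρ (fun f => ?_) h
  obtain ⟨l', h3, h4⟩ := blocks ρ g (max e1 e2) (d + 1) K _ (fun x hx => by
    obtain ⟨i, rfl⟩ := List.mem_ofFn.1 hx
    exact ⟨f i, by rw [map_one, one_mul]⟩)
    (List.length_ofFn (f := fun i => ρ 1 * (ρ (zw g (f i) (max e1 e2)) - 1)))
  exact h4.trans (hK l' h3)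

end Pool.Agent.Lib.MP_b39e30_al.Rc
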