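import Pool.Agent.Lib.MP_b39e30_al.Rc.MDef

/-!
Descent along the chain of ideals.
-/

set_option autoImplicit false

namespace Pool.Agent.Lib.MP_b39e30_al.Rc

variable {R M : Type} [CommRing R] [AddCommGroup M] [Module R M] {d : ℕ}

/-- The chain of ideals. -/
def EJ (R : Type) {M : Type} [CommRing R] [AddCommGroup M] [Module R M] {d : ℕ} (b : Fin d → M)
    (N r : ℕ) : Ideal R :=
  Ideal.span ({(N : R)} ∪ {δ | ∃ J : Finset (Fin d), J.card < r ∧ δ ∈ DJ R b J})

theorem ms_iter {F : Type} (φ : F → Module.End R M) (I : Ideal R) (δ : R)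
    (h : ∀ f v, δ ^ 2 • φ f v ∈ I • (⊤ : Submodule R M)) (l : List F) (v : M) :
    δ ^ (2 * l.length) • (l.map φ).prod v ∈ I ^ l.length • (⊤ : Submodule R M) := by
  induction l with
  | nil => simp
  | cons f l ih =>
    rw [List.length_cons, List.map_cons, List.prod_cons, Module.End.mul_apply, mul_add, mul_one,
      add_comm (2 * l.length), pow_add δ, mul_smul, ← map_smul (φ f) (δ ^ (2 * l.length)),
      pow_succ I l.length, Submodule.mul_smul]
    refine Submodule.smul_induction_on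
      (p := fun w => δ ^ 2 • φ f w ∈ I ^ l.length • I • (⊤ : Submodule R M)) ih
      (fun x hx u _ => ?_) fun x y hx hy => ?_
    · beta_reduce
      rw [map_smul, smul_comm (δ ^ 2) x]
      exact Submodule.smul_mem_smul (I := I ^ l.length) hx (h f u)
    · rw [map_add, smul_add]
      exact add_mem hx hy

theorem mod_step (hR : Crit R) (b : Fin d → M) {F : Type} (φ : F → Module.End R M) {N : ℕ}
    (h0 : N ≠ 0)
    (hB : ∀ J : Finset (Fin d), ∃ m : ℕ, ∀ δ ∈ DJ R b J, ∀ (v : M) (f : F), ∃ ψ : Fin d → R,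
      ∑ j ∈ J, ψ j • b j = δ • φ f v ∧ ∀ j ∈ J, (δ * ψ j) ^ m ∈ DJ R b (J.erase j)) (r : ℕ) :
    ∃ t s : ℕ, ∀ l : List F, l.length = t → ∀ x ∈ EJ R b N (r + 1) ^ s, ∀ v : M,
      x • (l.map φ).prod v ∈ EJ R b N r • (⊤ : Submodule R M) := by
  classical
  choose m hm using hB
  have ha : (N : R) ∈ EJ R b N r := Ideal.subset_span (Or.inl rfl)
  obtain ⟨t, ht⟩ := crit_span hR h0 _ ha {x | x ^ Finset.univ.sup m ∈ EJ R b N r} _ fun _ h => h
  have h1 : ∀ J : Finset (Fin d), J.card < r + 1 → ∀ δ ∈ DJ R b J, ∀ f v, δ ^ 2 • φ f v ∈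
      Ideal.span {x | x ^ Finset.univ.sup m ∈ EJ R b N r} • (⊤ : Submodule R M) := by
    intro J hJ δ hδ f v
    obtain ⟨ψ, h2, h3⟩ := hm J δ hδ v f
    rw [sq, mul_smul, ← h2, Finset.smul_sum]
    refine sum_mem fun j hj => ?_
    rw [← mul_smul]
    refine Submodule.smul_mem_smul (Ideal.subset_span ?_) trivial
    refine Ideal.pow_mem_of_pow_mem (EJ R b N r) (Ideal.subset_span (Or.inr ⟨_, ?_, h3 j hj⟩))
      (Finset.le_sup (Finset.mem_univ J))
    have := Finset.card_erase_lt_of_mem hj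
    omega
  let A : Ideal R :=
    { carrier := {x | ∀ l : List F, l.length = t → ∀ v : M,
        x • (l.map φ).prod v ∈ EJ R b N r • (⊤ : Submodule R M)}
      zero_mem' := fun _ _ _ => by rw [zero_smul]; exact zero_mem _
      add_mem' := fun hx hy l hl v => by rw [add_smul]; exact add_mem (hx l hl v) (hy l hl v)
      smul_mem' := fun c x hx l hl v => by
        rw [smul_assoc]
        exact Submodule.smul_mem _ c (hx l hl v) }
  have hN : (N : R) ∈ A := fun _ _ _ => Submodule.smul_mem_smul ha trivial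
  obtain ⟨s, hs⟩ := crit_span hR h0 A hN
    ({(N : R)} ∪ {δ | ∃ J : Finset (Fin d), J.card < r + 1 ∧ δ ∈ DJ R b J}) (2 * t + 1) (by
      rintro y (rfl | ⟨J, hJ, hy⟩)
      · exact A.pow_mem_of_mem hN _ (Nat.succ_pos _)
      · rw [pow_succ]
        refine A.mul_mem_right _ fun l hl v => ?_
        have h2 := ms_iter φ _ y (h1 J hJ y hy) l v
        rw [hl] at h2
        exact Submodule.smul_mono_left ht h2)
  exact ⟨t, s, fun l hl x hx v => hs hx l hl v⟩

end Pool.Agent.Lib.MP_b39e30_al.Rc
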