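import Pool.Agent.Lib.MP_b39e30_al.Rc.Field
import Pool.Agent.Lib.MP_b39e30_al.Rc.Frob
import Pool.Agent.Lib.MP_b39e30_al.Lc.Fm

/-!
Bounded left Engel elements of linear groups over rings whose nil ideals of bounded index are
nilpotent.
-/

set_option autoImplicit false

namespace Pool.Agent.Lib.MP_b39e30_al.Rc

open Pool.Agent.Lib.MP_b39e30_al.Lin Pool.Agent.Lib.MP_b39e30_al.Lc

theorem zw_mono' {A : Type*} [Monoid A] {Γ : Type*} [Group Γ] (σ : Γ →* A) {g : Γ} {f : ℕ → Γ}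
    {e e' : ℕ} (h : σ (zw g f e) = 1) (he : e ≤ e') : σ (zw g f e') = 1 := by
  have h1 : σ.toHomUnits (zw g f e) = 1 := Units.ext h
  rw [map_zw] at h1
  exact congrArg Units.val ((map_zw σ.toHomUnits g f e').trans (zw_mono h1 he))

theorem blk {A : Type*} [Ring A] {Γ : Type*} [Group Γ] (ρ : Γ →* A) (g : Γ) (e : ℕ) (l : List A)
    (hl : ∀ x ∈ l, ∃ f, x = ρ (zw g f e) - 1) {k : ℕ} (hk : l.length = k) :
    ∃ f : Fin k → ℕ → Γ, l.prod = ulPr ρ g e (fun _ => 1) f := by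
  subst hk
  choose f hf using fun i : Fin l.length => hl _ (List.get_mem l i)
  refine ⟨f, ?_⟩
  simp only [ulPr, map_one, one_mul, ← hf, List.ofFn_get]

variable {d : ℕ} {R : Type} [CommRing R] {Γ : Type} [Group Γ]

theorem ring_nil (ρ : Γ →* Matrix (Fin d) (Fin d) R) {n : ℕ} {g : Γ} (h : Eng n g) :
    ∃ e, ∀ e', e ≤ e' → ∃ m, ∀ (f : Fin d → ℕ → Γ) a b,
      ulPr ρ g e' (fun _ => 1) f a b ^ m = 0 := by
  obtain ⟨e, he⟩ := unif' (piRep ρ (Fin d → ℕ → Γ)) (eng_pi h _)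
  rw [Fintype.card_fin] at he
  refine ⟨e, fun e' h1 => ?_⟩
  have h2 : ∀ t : Fin d × Fin d, IsNilpotent (ulPr (piRep ρ (Fin d → ℕ → Γ)) (fun _ => g) e'
      (fun _ => 1) (fun i j f => f i j) t.1 t.2) := fun t =>
    nilpotent_iff_mem_prime.2 fun p hp => (ul_iff _ (fun _ => Ideal.Quotient.eq_zero_iff_mem)
      _ _ _ _).1 ((he p hp).mono h1) _ _ _ _
  choose m hm using h2
  refine ⟨∑ t, m t, fun f a b => pow_eq_zero_of_le
    (Finset.single_le_sum (fun _ _ => Nat.zero_le _) (Finset.mem_univ (a, b))) ?_⟩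
  have h3 := ul_map (Pi.evalRingHom (fun _ : Fin d → ℕ → Γ => R) f).mapMatrix
    (Pi.evalMonoidHom (fun _ : Fin d → ℕ → Γ => Γ) f) (ρ := piRep ρ (Fin d → ℕ → Γ)) (σ := ρ)
    (fun _ => rfl) (fun _ => g) e' (fun _ => 1) fun i j f => f i j
  have h4 := congrArg (Pi.evalRingHom (fun _ : Fin d → ℕ → Γ => R) f) (hm (a, b))
  rw [map_pow, map_zero] at h4
  exact (congrArg (· ^ m (a, b)) (congrFun (congrFun h3 a) b)).symm.trans h4

/-- The elements killed by a power of `M`. -/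
def tors (R : Type) [CommRing R] (M : ℕ) : Ideal R where
  carrier := {x | ∃ k : ℕ, M ^ k • x = 0}
  zero_mem' := ⟨0, smul_zero _⟩
  add_mem' := fun {x y} ⟨i, hi⟩ ⟨j, hj⟩ => ⟨i + j, by
    rw [smul_add, pow_add, mul_smul, mul_smul, hj, smul_comm, hi, smul_zero, smul_zero, add_zero]⟩
  smul_mem' := fun r x ⟨i, hi⟩ => ⟨i, by rw [smul_comm, hi, smul_zero]⟩

theorem ring_tors (ρ : Γ →* Matrix (Fin d) (Fin d) R) {n : ℕ} {g : Γ} (h : Eng n g) :
    ∃ e, ∀ e', e ≤ e' → ∃ M : ℕ, M ≠ 0 ∧ ∀ f : ℕ → Γ, M • (ρ (zw g f e') - 1) = 0 := by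
  obtain ⟨N, hN⟩ := unifM d n
  refine ⟨N, fun e' h1 => ?_⟩
  let T := tors ((ℕ → Γ) → R) N.factorial
  let σ := (Ideal.Quotient.mk T).mapMatrix.toMonoidHom.comp (piRep ρ (ℕ → Γ))
  have h2 := hN (((ℕ → Γ) → R) ⧸ T) (Fin d → ((ℕ → Γ) → R) ⧸ T) (Pi.basisFun _ (Fin d))
    (Pi.basisFun _ (Fin d)).span_eq (fun v hv => funext fun i => by
      obtain ⟨x, hx⟩ := Ideal.Quotient.mk_surjective (v i)
      have h3 : N.factorial • v i = 0 := congrFun hv i
      rw [← hx, ← map_nsmul, Ideal.Quotient.eq_zero_iff_mem] at h3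
      obtain ⟨k, hk⟩ := h3
      rw [← hx]
      exact Ideal.Quotient.eq_zero_iff_mem.2 ⟨k + 1, by rw [pow_succ, mul_smul, hk]⟩) _
    (Matrix.toLinAlgEquiv'.toAlgHom.toRingHom.toMonoidHom.comp σ) _ (eng_pi h _) fun j f => f j
  have h4 : σ (zw (fun _ => g) (fun j f => f j) e') = 1 :=
    zw_mono' σ (Matrix.toLinAlgEquiv'.injective (h2.trans (map_one _).symm)) h1
  have h5 : ∀ t : Fin d × Fin d,
      (piRep ρ (ℕ → Γ) (zw (fun _ => g) (fun j f => f j) e') - 1) t.1 t.2 ∈ T := fun t => by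
    have h6 : (Ideal.Quotient.mk T).mapMatrix
        (piRep ρ (ℕ → Γ) (zw (fun _ => g) (fun j f => f j) e') - 1) = 0 := by
      rw [map_sub, map_one, sub_eq_zero]
      exact h4
    exact Ideal.Quotient.eq_zero_iff_mem.1 (congrFun (congrFun h6 t.1) t.2)
  choose k hk using h5
  refine ⟨N.factorial ^ ∑ t, k t, pow_ne_zero _ N.factorial_ne_zero, fun f => ?_⟩
  ext a b
  obtain ⟨j, hj⟩ := Nat.exists_eq_add_of_le' (Finset.single_le_sum (f := k)
    (fun _ _ => Nat.zero_le _) (Finset.mem_univ (a, b)))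
  have h7 : (Pi.evalRingHom (fun _ : ℕ → Γ => R) f).mapMatrix
      (piRep ρ (ℕ → Γ) (zw (fun _ => g) (fun j f => f j) e') - 1) = ρ (zw g f e') - 1 := by
    rw [map_sub, map_one]
    exact congrArg (fun z => ρ z - 1)
      (map_zw (Pi.evalMonoidHom (fun _ : ℕ → Γ => Γ) f) (fun _ => g) (fun j f => f j) e')
  have h8 := congrArg (Pi.evalRingHom (fun _ : ℕ → Γ => R) f) (hk (a, b))
  rw [map_nsmul, map_zero] at h8
  rw [Matrix.smul_apply, hj, pow_add, mul_smul, ← h7, Matrix.zero_apply]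
  exact (congrArg _ h8).trans (smul_zero _)

theorem ring_thm (hR : ∀ I : Ideal R, (∃ m : ℕ, ∀ a ∈ I, a ^ m = 0) → IsNilpotent I)
    (ρ : Γ →* Matrix (Fin d) (Fin d) R) (hρ : Function.Injective ρ) {n : ℕ} {g : Γ}
    (h : Eng n g) : (Subgroup.zpowers g).IsSubnormal := by
  rcases d with _ | d
  · exact QQ.subnormal (e := 0) (m := 0) hρ (fun _ => Subsingleton.elim _ _) h
  obtain ⟨e1, h1⟩ := ring_nil ρ h
  obtain ⟨e2, h2⟩ := ring_tors ρ h
  obtain ⟨m, hm⟩ := h1 _ (le_max_left e1 e2)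
  obtain ⟨M, hM0, hM⟩ := h2 _ (le_max_right e1 e2)
  obtain ⟨T, hT⟩ := frob m M hM0
  let S : Set R := {x | ∃ (f : Fin (d + 1) → ℕ → Γ) (a b : Fin (d + 1)),
    x = ulPr ρ g (max e1 e2) (fun _ => 1) f a b}
  obtain ⟨t, ht⟩ := hR (Ideal.span S) ⟨T, hT R S (by
    rintro _ ⟨f, a, b, rfl⟩
    refine ⟨hm f a b, ?_⟩
    rw [← Matrix.smul_apply, ulPr, List.ofFn_succ, List.prod_cons, ← smul_mul_assoc,
      ← mul_smul_comm, hM, mul_zero, zero_mul, Matrix.zero_apply])⟩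
  have key : ∀ (i : ℕ) (l : List (Matrix (Fin (d + 1)) (Fin (d + 1)) R)),
      (∀ x ∈ l, ∃ f, x = ρ (zw g f (max e1 e2)) - 1) → l.length = i * (d + 1) →
      ∀ a b, l.prod a b ∈ Ideal.span S ^ i := fun i => by
    induction i with
    | zero => simp
    | succ i ih =>
      intro l hl hn a b
      rw [add_mul, one_mul] at hn
      obtain ⟨f, hf⟩ := blk ρ g _ (l.take (d + 1)) (fun x hx => hl x (List.mem_of_mem_take hx))
        (List.length_take_of_le (by omega))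
      rw [← List.take_append_drop (d + 1) l, List.prod_append, Matrix.mul_apply, pow_succ', hf]
      exact Ideal.sum_mem _ fun c _ => Ideal.mul_mem_mul (Ideal.subset_span ⟨f, a, c, rfl⟩)
        (ih _ (fun x hx => hl x (List.mem_of_mem_drop hx)) (by rw [List.length_drop]; omega) c b)
  refine QQ.subnormal (e := max e1 e2) (m := t * (d + 1)) hρ (fun f => ?_) h
  ext a b
  have h3 := key t _ (fun x hx => by
    obtain ⟨i, rfl⟩ := List.mem_ofFn.1 hx
    exact ⟨f i, by rw [map_one, one_mul]⟩)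
    (List.length_ofFn (f := fun i => ρ 1 * (ρ (zw g (f i) (max e1 e2)) - 1))) a b
  rw [ht] at h3
  exact h3

end Pool.Agent.Lib.MP_b39e30_al.Rc
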