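import Pool.Agent.Lib.MP_b39e30_al.Lin.GDefs

/-!
The infinitesimal step in characteristic `p`.
-/

set_option autoImplicit false

namespace Pool.Agent.Lib.MP_b39e30_al.Rc

open Pool.Agent.Lib.MP_b39e30_al.Lin

theorem sq_iter {E : Type*} [Ring E] {Δ : Type*} [Group Δ] (τ : Δ →* E) (g z : Δ) {W : E}
    (c : Module.End ℤ E) (hc : ∀ V, c V = τ g⁻¹ * V * τ g) (hz : τ z = 1 + W)
    (hW : ∀ a, W * a * W = 0) (i : ℕ) :
    τ ((fun y => y⁻¹ * g⁻¹ * y * g)^[i] z) = 1 + ((c - 1) ^ i) W ∧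
      ∀ a, ((c - 1) ^ i) W * a * ((c - 1) ^ i) W = 0 := by
  induction i with
  | zero => exact ⟨hz, hW⟩
  | succ i ih =>
    rw [Function.iterate_succ_apply', pow_succ', Module.End.mul_apply]
    obtain ⟨h1, h2⟩ := ih
    generalize ((c - 1) ^ i) W = V at h1 h2 ⊢
    generalize (fun y => y⁻¹ * g⁻¹ * y * g)^[i] z = x at h1 ⊢
    rw [LinearMap.sub_apply, Module.End.one_apply, hc]
    have h3 : τ x⁻¹ * (1 + V) = 1 := by rw [← h1, ← map_mul, inv_mul_cancel, map_one]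
    have h4 : V * V = 0 := by simpa using h2 1
    have h5 : τ x⁻¹ = 1 - V := by
      have e : τ x⁻¹ * (1 + V) * (1 - V) = τ x⁻¹ - τ x⁻¹ * (V * V) := by noncomm_ring
      rw [h3, h4, mul_zero, sub_zero, one_mul] at e
      exact e.symm
    have h6 : τ g⁻¹ * τ g = 1 := by rw [← map_mul, inv_mul_cancel, map_one]
    refine ⟨?_, fun a => ?_⟩
    · have e : (1 - V) * τ g⁻¹ * (1 + V) * τ g = (1 - V) * (τ g⁻¹ * τ g) + τ g⁻¹ * V * τ g -
          V * τ g⁻¹ * V * τ g := by noncomm_ring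
      rw [map_mul, map_mul, map_mul, h1, h5, e, h6, h2, zero_mul]
      noncomm_ring
    · have e : (τ g⁻¹ * V * τ g - V) * a * (τ g⁻¹ * V * τ g - V) =
          τ g⁻¹ * (V * (τ g * a * τ g⁻¹) * V) * τ g - τ g⁻¹ * (V * (τ g * a) * V) -
            V * (a * τ g⁻¹) * V * τ g + V * a * V := by noncomm_ring
      simp only [e, h2, mul_zero, zero_mul, sub_zero, add_zero]

theorem sq_pow {E : Type*} [Ring E] {W S : E} (h : Commute W S) (h2 : W * W = 0) (i : ℕ) :
    ((1 + W) * S) ^ i = (1 + i * W) * S ^ i := by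
  rw [((Commute.one_left S).add_left h).mul_pow]
  congr 1
  induction i with
  | zero => simp
  | succ i ih =>
    rw [pow_succ, ih, mul_add, mul_one, add_mul, one_mul, mul_assoc, h2, mul_zero, add_zero,
      Nat.cast_succ, add_mul, one_mul, add_assoc]

theorem sq_step {k E : Type*} [CommRing k] [Ring E] [Algebra k E] {p : ℕ} (hp : p.Prime)
    (h0 : (p : E) = 0) {Δ : Type*} [Group Δ] (τ : Δ →* E) {n j : ℕ} {g y : Δ} (h : Eng n g)
    (hn : n ≤ p ^ j) (hs : τ (g ^ p ^ j) ∈ Algebra.adjoin k {τ (g ^ p ^ (j + 1))})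
    (hD : ∀ a : E, (τ (y * g ^ p ^ j * y⁻¹) - τ (g ^ p ^ j)) * a *
      (τ (y * g ^ p ^ j * y⁻¹) - τ (g ^ p ^ j)) = 0) :
    τ (y * g ^ p ^ j * y⁻¹) = τ (g ^ p ^ j) := by
  have inv : ∀ x : Δ, τ x * τ x⁻¹ = 1 := fun x => by rw [← map_mul, mul_inv_cancel, map_one]
  have inv' : ∀ x : Δ, τ x⁻¹ * τ x = 1 := fun x => by rw [← map_mul, inv_mul_cancel, map_one]
  rw [pow_succ p, pow_mul] at hs
  let c : Module.End ℤ E := LinearMap.mulLeft ℤ (τ g⁻¹) * LinearMap.mulRight ℤ (τ g)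
  have hc : ∀ V, c V = τ g⁻¹ * V * τ g := fun V => (mul_assoc _ _ _).symm
  have hcp : ∀ (m : ℕ) V, (c ^ m) V = τ (g ^ m)⁻¹ * V * τ (g ^ m) := fun m V => by
    induction m with
    | zero => simp
    | succ m ih =>
      rw [pow_succ' c, Module.End.mul_apply, ih, hc, pow_succ g, mul_inv_rev, map_mul, map_mul]
      simp only [mul_assoc]
  have hp0 : (p : Module.End ℤ E) = 0 := LinearMap.ext fun V => by
    rw [Module.End.natCast_apply, nsmul_eq_mul, h0, zero_mul, LinearMap.zero_apply]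
  obtain ⟨r, hr⟩ := (Commute.one_right (c - 1)).exists_add_pow_prime_pow_eq hp j
  rw [sub_add_cancel, hp0, one_pow] at hr
  simp only [zero_mul, add_zero] at hr
  have h1 := hcp (p ^ j)
  generalize g ^ p ^ j = s at *
  obtain ⟨W, hW⟩ : ∃ W, W = (τ (y * s * y⁻¹) - τ s) * τ s⁻¹ := ⟨_, rfl⟩
  have h2 : ∀ a, W * a * W = 0 := fun a => by
    have := hD (τ s⁻¹ * a)
    rw [hW, ← mul_assoc, mul_assoc _ (τ s⁻¹) a, this, zero_mul]
  have h3 : τ (y * s * y⁻¹ * s⁻¹) = 1 + W := by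
    rw [hW, sub_mul, inv, map_mul, add_sub_cancel]
  have h4 := (sq_iter τ g _ c hc h3 h2 n).1
  rw [h, map_one, left_eq_add] at h4
  have h5 : τ s⁻¹ * W * τ s = W := by
    obtain ⟨m, hm⟩ := Nat.exists_eq_add_of_le' hn
    rw [← h1, hr, hm, pow_add, LinearMap.add_apply, Module.End.mul_apply, h4, map_zero, zero_add,
      Module.End.one_apply]
  have h6 : Commute W (τ s) := by
    have := congrArg (τ s * ·) h5
    simp only [← mul_assoc, inv, one_mul] at this
    exact this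
  have h7 : τ (y * s * y⁻¹) = (1 + W) * τ s := by rw [← h3, ← map_mul, inv_mul_cancel_right]
  have h8 : τ (y * s ^ p * y⁻¹) = τ (s ^ p) := by
    rw [← conj_pow, map_pow, h7, sq_pow h6 (by simpa using h2 1), h0, zero_mul, add_zero, one_mul,
      map_pow]
  have h9 : Commute (τ y) (τ (s ^ p)) := by
    have := congrArg (· * τ y) h8
    simp only [← map_mul, inv_mul_cancel_right] at this
    rw [map_mul, map_mul] at this
    exact this
  have h10 := Algebra.commute_of_mem_adjoin_singleton_of_commute hs h9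
  rw [map_mul, map_mul, h10.eq, mul_assoc, inv, mul_one]

theorem exists_j {K E : Type*} [Field K] [Ring E] [Algebra K E] [FiniteDimensional K E] {p : ℕ}
    (hp : p.Prime) (X : E) (n : ℕ) :
    ∃ (j : ℕ) (φ : Polynomial K), n ≤ p ^ j ∧ X ^ p ^ j = Polynomial.aeval (X ^ p ^ (j + 1)) φ := by
  let A : ℕ → Submodule K E := fun j => Subalgebra.toSubmodule (Algebra.adjoin K {X ^ p ^ j})
  have hA : Antitone A := antitone_nat_of_succ_le fun j => by
    refine (Algebra.adjoin_le (Set.singleton_subset_iff.2 ?_) :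
      Algebra.adjoin K {X ^ p ^ (j + 1)} ≤ Algebra.adjoin K {X ^ p ^ j})
    rw [pow_succ p, pow_mul]
    exact pow_mem (Algebra.self_mem_adjoin_singleton K _) _
  obtain ⟨j, hj⟩ := IsArtinian.monotone_stabilizes
    (⟨fun i => OrderDual.toDual (A i), hA⟩ : ℕ →o (Submodule K E)ᵒᵈ)
  have h1 : A (j + n) = A (j + n + 1) := (hj _ (by omega)).symm.trans (hj _ (by omega))
  have h2 : X ^ p ^ (j + n) ∈ A (j + n + 1) := h1 ▸ Algebra.self_mem_adjoin_singleton K _
  have h3 : X ^ p ^ (j + n) ∈ Algebra.adjoin K {X ^ p ^ (j + n + 1)} := h2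
  rw [Algebra.adjoin_singleton_eq_range_aeval] at h3
  obtain ⟨φ, hφ⟩ := h3
  exact ⟨j + n, φ, (Nat.le_add_left n j).trans (Nat.lt_pow_self hp.one_lt).le, hφ.symm⟩

end Pool.Agent.Lib.MP_b39e30_al.Rc
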